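import Mathlib

-- merged part: Pool.Agent.Work.MP_5bd7f1_co.PD.Defs
section
/-! Planarity through Whitney's abstract dual over `ZMod 2`; definitions. -/

set_option autoImplicit false
open Relation

namespace Pool.Agent.Pl

variable {V : Type}

open Classical in
/-- parity of the edge function `S` at the vertex `v` -/
noncomputable def bd [Fintype V] (G : SimpleGraph V) (S : Sym2 V → ZMod 2) (v : V) : ZMod 2 :=
  ∑ w, if G.Adj v w then S s(v, w) else 0

/-- an abstract dual: the even edge sets of `G` are exactly the cuts of the dual -/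
structure Dual [Fintype V] (G : SimpleGraph V) where
  Fc : Type
  l : Sym2 V → Fc
  r : Sym2 V → Fc
  cob : ∀ S : Sym2 V → ZMod 2, (∀ v, bd G S v = 0) ↔
    ∃ c : Fc → ZMod 2, ∀ u v, G.Adj u v → S s(u, v) = c (l s(u, v)) + c (r s(u, v))

/-- `G` is planar -/
def PD [Fintype V] (G : SimpleGraph V) : Prop := Nonempty (Dual G)

/-- `G` with a new vertex joined to the non-isolated vertices of `O` -/
def apex (G : SimpleGraph V) (O : Set V) : SimpleGraph (Option V) where
  Adj a b := match a, b with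
    | some u, some v => G.Adj u v
    | none, some v => v ∈ O ∧ v ∈ G.support
    | some u, none => u ∈ O ∧ u ∈ G.support
    | none, none => False
  symm := ⟨by
    intro a b h
    cases a <;> cases b
    · exact h
    · exact h
    · exact h
    · exact G.symm.symm _ _ h⟩
  loopless := ⟨by
    intro a h
    cases a
    · exact h
    · exact G.loopless.irrefl _ h⟩

/-- `G` is planar with all vertices of `O` on the outer face -/
def PO [Fintype V] (G : SimpleGraph V) (O : Set V) : Prop := PD (apex G O)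

/-- delete all edges that meet `X` -/
def del (G : SimpleGraph V) (X : Set V) : SimpleGraph V where
  Adj a b := G.Adj a b ∧ a ∉ X ∧ b ∉ X
  symm := ⟨fun _ _ h => ⟨h.1.symm, h.2.2, h.2.1⟩⟩
  loopless := ⟨fun _ h => G.loopless.irrefl _ h.1⟩

/-- identify `y` with `w` (the vertex `y` becomes isolated) -/
def ident (G : SimpleGraph V) (y w : V) : SimpleGraph V where
  Adj a b := a ≠ b ∧ a ≠ y ∧ b ≠ y ∧ (G.Adj a b ∨ (a = w ∧ G.Adj y b) ∨ (b = w ∧ G.Adj a y))
  symm := ⟨by
    rintro a b ⟨h1, h2, h3, h | h | h⟩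
    · exact ⟨h1.symm, h3, h2, Or.inl h.symm⟩
    · exact ⟨h1.symm, h3, h2, Or.inr (Or.inr ⟨h.1, h.2.symm⟩)⟩
    · exact ⟨h1.symm, h3, h2, Or.inr (Or.inl ⟨h.1, h.2.symm⟩)⟩⟩
  loopless := ⟨fun _ h => h.1 rfl⟩

/-- 2-connected on its support, with at least three non-isolated vertices -/
def TwoConn (G : SimpleGraph V) : Prop :=
  (∃ a ∈ G.support, ∃ b ∈ G.support, ∃ c ∈ G.support, a ≠ b ∧ a ≠ c ∧ b ≠ c) ∧
  ∀ x a b, a ∈ G.support → b ∈ G.support → a ≠ x → b ≠ x →
    ReflTransGen (fun u v => G.Adj u v ∧ u ≠ x ∧ v ≠ x) a b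

/-- the graph `K` is one cycle plus isolated vertices -/
def IsCyc (K : SimpleGraph V) : Prop :=
  K ≠ ⊥ ∧ (∀ v ∈ K.support, ∃ x y, x ≠ y ∧ ∀ w, K.Adj v w ↔ w = x ∨ w = y) ∧
  ∀ a ∈ K.support, ∀ b ∈ K.support, K.Reachable a b

/-- the graph `K` is one path from `a` to `b` plus isolated vertices -/
def IsPth (K : SimpleGraph V) (a b : V) : Prop :=
  a ≠ b ∧ (∃ x, ∀ w, K.Adj a w ↔ w = x) ∧ (∃ x, ∀ w, K.Adj b w ↔ w = x) ∧
  (∀ v ∈ K.support, v ≠ a → v ≠ b → ∃ x y, x ≠ y ∧ ∀ w, K.Adj v w ↔ w = x ∨ w = y) ∧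
  ∀ v ∈ K.support, K.Reachable a v

/-- `F` runs round a cycle of length `m` of `G` -/
def Cyc (G : SimpleGraph V) (m : ℕ) (F : ℤ → V) : Prop :=
  3 ≤ m ∧ (∀ i, G.Adj (F i) (F (i + 1))) ∧ ∀ i j, F i = F j ↔ (m : ℤ) ∣ i - j

/-- the edges `F i, F (i+1)` -/
def cycG (F : ℤ → V) : SimpleGraph V :=
  SimpleGraph.fromRel fun x y => ∃ i, x = F i ∧ y = F (i + 1)

/-- the edges `F i, F (i+1)` for `a ≤ i < b` -/
def arcG (F : ℤ → V) (a b : ℤ) : SimpleGraph V :=
  SimpleGraph.fromRel fun x y => ∃ i, a ≤ i ∧ i < b ∧ x = F i ∧ y = F (i + 1)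

/-- the edges between consecutive entries of a list -/
def listG (l : List V) : SimpleGraph V :=
  SimpleGraph.fromRel fun x y => [x, y] <:+: l

/-- the closed list -/
def loopG (l : List V) : SimpleGraph V := listG (l ++ l.take 1)

open Classical in
/-- indicator of the edges of `K` -/
noncomputable def ind (K : SimpleGraph V) (e : Sym2 V) : ZMod 2 := if e ∈ K.edgeSet then 1 else 0

/-- a 2-connected plane graph whose outer face `f0` is bounded by the cycle `F` -/
structure Disc [Fintype V] (G : SimpleGraph V) (m : ℕ) (F : ℤ → V) extends Dual G where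
  two : TwoConn G
  cyc : Cyc G m F
  f0 : toDual.Fc
  out : ∀ u v, G.Adj u v → ((cycG F).Adj u v ↔ (l s(u, v) = f0 ∨ r s(u, v) = f0))

open Classical in
/-- the faces inside the cycle `K` (value 1) -/
noncomputable def Disc.ins [Fintype V] {G : SimpleGraph V} {m : ℕ} {F : ℤ → V} (D : Disc G m F)
    (K : SimpleGraph V) : D.Fc → ZMod 2 :=
  if h : ∃ c : D.Fc → ZMod 2, c D.f0 = 0 ∧
      ∀ u v, G.Adj u v → ind K s(u, v) = c (D.l s(u, v)) + c (D.r s(u, v)) then h.choose
  else fun _ => 0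

/-- the closed disc bounded by the cycle `K` -/
def Disc.In [Fintype V] {G : SimpleGraph V} {m : ℕ} {F : ℤ → V} (D : Disc G m F)
    (K : SimpleGraph V) : SimpleGraph V where
  Adj u v := G.Adj u v ∧ (D.ins K (D.l s(u, v)) = 1 ∨ D.ins K (D.r s(u, v)) = 1)
  symm := ⟨fun u v h => ⟨h.1.symm, by rw [Sym2.eq_swap (a := v)]; exact h.2⟩⟩
  loopless := ⟨fun _ h => G.loopless.irrefl _ h.1⟩

end Pool.Agent.Pl
end

-- merged part: Pool.Agent.Work.MP_5bd7f1_co.PD.Basic
section
/-! Parity lemmas. -/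

set_option autoImplicit false
open Relation

namespace Pool.Agent.Pl

variable {V : Type} [Fintype V]

theorem z2_add_self (a : ZMod 2) : a + a = 0 := by revert a; decide

theorem z2_cases (a : ZMod 2) : a = 0 ∨ a = 1 := by revert a; decide

omit [Fintype V] in
theorem rtg_symm {α : Type} {R : α → α → Prop} (hs : ∀ x y, R x y → R y x) {a b : α}
    (h : ReflTransGen R a b) : ReflTransGen R b a := by
  induction h with
  | refl => exact ReflTransGen.refl
  | tail _ h2 ih => exact ReflTransGen.head (hs _ _ h2) ih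

omit [Fintype V] in
theorem rtg_mono {α : Type} {R S : α → α → Prop} (hs : ∀ x y, R x y → S x y) {a b : α}
    (h : ReflTransGen R a b) : ReflTransGen S a b := by
  induction h with
  | refl => exact ReflTransGen.refl
  | tail _ h2 ih => exact ih.tail (hs _ _ h2)

theorem bd_add (G : SimpleGraph V) (S T : Sym2 V → ZMod 2) (v : V) :
    bd G (S + T) v = bd G S v + bd G T v := by
  classical
  unfold bd
  rw [← Finset.sum_add_distrib]
  refine Finset.sum_congr rfl fun w _ => ?_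
  split_ifs <;> simp

theorem bd_smul (G : SimpleGraph V) (t : ZMod 2) (S : Sym2 V → ZMod 2) (v : V) :
    bd G (fun e => t * S e) v = t * bd G S v := by
  classical
  unfold bd
  rw [Finset.mul_sum]
  refine Finset.sum_congr rfl fun w _ => ?_
  split_ifs <;> simp

theorem bd_zero (G : SimpleGraph V) (v : V) : bd G (fun _ => 0) v = 0 := by
  classical
  unfold bd
  simp

theorem bd_congr {G : SimpleGraph V} {S T : Sym2 V → ZMod 2} {v : V}
    (h : ∀ w, G.Adj v w → S s(v, w) = T s(v, w)) : bd G S v = bd G T v := by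
  classical
  unfold bd
  refine Finset.sum_congr rfl fun w _ => ?_
  split_ifs with hw
  · exact h w hw
  · rfl

/-- a function that vanishes on the edges of `G` outside `K` -/
theorem bd_sub {G K : SimpleGraph V} (hK : K ≤ G) {S : Sym2 V → ZMod 2} {v : V}
    (h : ∀ w, G.Adj v w → ¬ K.Adj v w → S s(v, w) = 0) : bd G S v = bd K S v := by
  classical
  unfold bd
  refine Finset.sum_congr rfl fun w _ => ?_
  by_cases h1 : K.Adj v w
  · simp [h1, hK h1]
  · by_cases h2 : G.Adj v w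
    · simp [h1, h2, h w h2 h1]
    · simp [h1, h2]

theorem bd_sum {ι : Type} (G : SimpleGraph V) (s : Finset ι) (S : ι → Sym2 V → ZMod 2) (v : V) :
    bd G (fun e => ∑ i ∈ s, S i e) v = ∑ i ∈ s, bd G (S i) v := by
  classical
  unfold bd
  rw [Finset.sum_comm]
  refine Finset.sum_congr rfl fun w _ => ?_
  split_ifs <;> simp

/-- one edge at `v` -/
theorem bd_one {G : SimpleGraph V} {S : Sym2 V → ZMod 2} {v x : V} (hx : G.Adj v x)
    (h : ∀ w, G.Adj v w → w ≠ x → S s(v, w) = 0) : bd G S v = S s(v, x) := by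
  classical
  unfold bd
  rw [Finset.sum_eq_single x]
  · simp [hx]
  · intro w _ hw
    split_ifs with h1
    · exact h w h1 hw
    · rfl
  · simp

/-- two edges at `v` -/
theorem bd_two {G : SimpleGraph V} {S : Sym2 V → ZMod 2} {v x y : V} (hx : G.Adj v x)
    (hy : G.Adj v y) (hxy : x ≠ y)
    (h : ∀ w, G.Adj v w → w ≠ x → w ≠ y → S s(v, w) = 0) :
    bd G S v = S s(v, x) + S s(v, y) := by
  classical
  unfold bd
  rw [Finset.sum_eq_add x y hxy]
  · simp [hx, hy]
  · intro w _ hw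
    split_ifs with h1
    · exact h w h1 hw.1 hw.2
    · rfl
  · simp
  · simp

theorem bd_none {G : SimpleGraph V} {S : Sym2 V → ZMod 2} {v : V}
    (h : ∀ w, G.Adj v w → S s(v, w) = 0) : bd G S v = 0 := by
  rw [bd_congr (T := fun _ => 0) h, bd_zero]

open Classical in
theorem bd_edge {G : SimpleGraph V} {a b : V} (h : G.Adj a b) (v : V) :
    bd G (fun e => if e = s(a, b) then 1 else 0) v =
      (if v = a then 1 else 0) + (if v = b then 1 else 0) := by
  have hab := h.ne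
  by_cases ha : v = a
  · subst ha
    rw [bd_one h]
    · simp [hab]
    · intro w _ hw
      simp [hw, hab]
  · by_cases hb : v = b
    · subst hb
      rw [bd_one h.symm]
      · simp [ha, Sym2.eq_swap]
      · intro w _ hw
        simp [hw, ha]
    · rw [bd_none]
      · simp [ha, hb]
      · intro w _
        simp [ha, hb]

omit [Fintype V] in
/-- a symmetric function with zero diagonal sums to zero over `A × A` -/
theorem sum_symm (A : Finset V) (f : V → V → ZMod 2) (hs : ∀ a b, f a b = f b a)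
    (hd : ∀ a, f a a = 0) : ∑ a ∈ A, ∑ b ∈ A, f a b = 0 := by
  classical
  induction A using Finset.induction_on with
  | empty => simp
  | insert x A hx ih =>
    rw [Finset.sum_insert hx, Finset.sum_insert hx, hd, zero_add]
    simp only [Finset.sum_insert hx, Finset.sum_add_distrib, ih, add_zero]
    rw [Finset.sum_congr rfl fun a _ => hs a x]
    exact z2_add_self _

open Classical in
/-- the sum of the parities over a set only sees the edges that leave the set -/
theorem sum_bd (G : SimpleGraph V) (S : Sym2 V → ZMod 2) (A : Finset V) :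
    ∑ a ∈ A, bd G S a = ∑ a ∈ A, ∑ b ∈ Aᶜ, if G.Adj a b then S s(a, b) else 0 := by
  unfold bd
  have h := sum_symm A (fun a b => if G.Adj a b then S s(a, b) else 0)
    (by intro a b; simp only [G.adj_comm a b, Sym2.eq_swap (a := a)]) (by simp)
  rw [Finset.sum_congr rfl fun a _ => (Finset.sum_add_sum_compl A _).symm, Finset.sum_add_distrib,
    h, zero_add]

theorem sum_bd_univ (G : SimpleGraph V) (S : Sym2 V → ZMod 2) : ∑ a, bd G S a = 0 := by
  classical
  rw [sum_bd]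
  simp

open Classical in
/-- a chain from `a` to `b` along a relation `R` -/
theorem exists_join {G : SimpleGraph V} {R : V → V → Prop} (hR : ∀ u v, R u v → G.Adj u v)
    {a b : V} (h : ReflTransGen R a b) :
    ∃ J : Sym2 V → ZMod 2, (∀ e, J e ≠ 0 → ∃ u v, R u v ∧ e = s(u, v)) ∧
      ∀ v, bd G J v = (if v = a then 1 else 0) + (if v = b then 1 else 0) := by
  induction h with
  | refl => exact ⟨fun _ => 0, by simp, fun v => by rw [bd_zero, z2_add_self]⟩
  | @tail b c _ hbc ih =>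
    obtain ⟨J, h1, h2⟩ := ih
    refine ⟨J + fun e => if e = s(b, c) then 1 else 0, ?_, fun v => ?_⟩
    · intro e he
      by_cases h : e = s(b, c)
      · exact ⟨b, c, hbc, h⟩
      · exact h1 e (by simpa [h] using he)
    · rw [bd_add, h2, bd_edge (hR _ _ hbc), add_assoc, ← add_assoc (if v = b then _ else _),
        z2_add_self, zero_add]

open Classical in
/-- a `T`-join inside a connected set -/
theorem exists_tjoin {G : SimpleGraph V} {R : V → V → Prop} (hR : ∀ u v, R u v → G.Adj u v)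
    (T : V → ZMod 2) (hc : ∀ a b, T a ≠ 0 → T b ≠ 0 → ReflTransGen R a b)
    (hT : ∑ a, T a = 0) :
    ∃ J : Sym2 V → ZMod 2, (∀ e, J e ≠ 0 → ∃ u v, R u v ∧ e = s(u, v)) ∧
      ∀ v, bd G J v = T v := by
  by_cases h0 : ∀ a, T a = 0
  · exact ⟨fun _ => 0, by simp, fun v => by rw [bd_zero, h0]⟩
  push Not at h0
  obtain ⟨a, ha⟩ := h0
  have : ∀ b, ∃ J : Sym2 V → ZMod 2, (∀ e, J e ≠ 0 → ∃ u v, R u v ∧ e = s(u, v)) ∧
      ∀ v, bd G J v = T b * ((if v = a then 1 else 0) + (if v = b then 1 else 0)) := by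
    intro b
    by_cases hb : T b = 0
    · exact ⟨fun _ => 0, by simp, fun v => by rw [bd_zero, hb, zero_mul]⟩
    · obtain ⟨J, h1, h2⟩ := exists_join hR (hc a b ha hb)
      refine ⟨J, h1, fun v => ?_⟩
      rw [h2, (z2_cases _).resolve_left hb, one_mul]
  choose J h1 h2 using this
  refine ⟨fun e => ∑ b, J b e, ?_, fun v => ?_⟩
  · intro e he
    obtain ⟨b, _, hb⟩ := Finset.exists_ne_zero_of_sum_ne_zero he
    exact h1 b e hb
  · rw [bd_sum]
    simp only [h2, mul_add, Finset.sum_add_distrib, ← Finset.sum_mul, hT, zero_mul, zero_add]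
    simp

omit [Fintype V] in
theorem ind_of_adj {K : SimpleGraph V} {u v : V} (h : K.Adj u v) : ind K s(u, v) = 1 := by
  simp [ind, h]

omit [Fintype V] in
theorem ind_of_not {K : SimpleGraph V} {u v : V} (h : ¬ K.Adj u v) : ind K s(u, v) = 0 := by
  simp [ind, h]

end Pool.Agent.Pl
end

-- merged part: Pool.Agent.Work.MP_5bd7f1_co.PD.Minor
section
/-! `PD` is closed under minors; the operations on `PO`. -/

set_option autoImplicit false
open Relation

namespace Pool.Agent.Pl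

variable {V : Type} [Fintype V]

open Classical in
theorem Minor_sum {W : Type} [Fintype W] {H : SimpleGraph W} {G : SimpleGraph V}
    (π : W → Option V) (ψ : Sym2 V → Sym2 W)
    (hψ : ∀ u v, G.Adj u v → ∃ a b, H.Adj a b ∧ π a = some u ∧ π b = some v ∧ ψ s(u, v) = s(a, b))
    (S : Sym2 W → ZMod 2)
    (hS : ∀ a b, H.Adj a b → S s(a, b) ≠ 0 →
      (∃ v, π a = some v ∧ π b = some v) ∨ ∃ u v, G.Adj u v ∧ ψ s(u, v) = s(a, b)) (v : V) :
    ∑ a ∈ Finset.univ.filter (fun a => π a = some v), bd H S a =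
      bd G (fun e => S (ψ e)) v := by
  rw [sum_bd, Finset.sum_sigma']
  unfold bd
  rw [← Finset.sum_filter, ← Finset.sum_filter]
  symm
  choose a b h1 h2 h3 h4 using hψ
  have key : ∀ x y, H.Adj x y → π x = some v → π y ≠ some v → S s(x, y) ≠ 0 →
      ∃ w, ∃ hw : G.Adj v w, a v w hw = x ∧ b v w hw = y := by
    intro x y hxy hx hy hs
    rcases hS x y hxy hs with ⟨z, hz1, hz2⟩ | ⟨u, w, huw, he⟩
    · rw [hx] at hz1
      exact absurd (hz2.trans hz1.symm) hy
    · have e1 := h4 u w huw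
      rw [he] at e1
      have main : ∀ w, ∀ hw : G.Adj v w, ψ s(v, w) = s(x, y) → a v w hw = x ∧ b v w hw = y := by
        intro w hw e2
        rw [h4 v w hw] at e2
        rcases Sym2.eq_iff.1 e2 with ⟨p, q⟩ | ⟨p, q⟩
        · exact ⟨p, q⟩
        · exact absurd (p ▸ h2 v w hw) hy
      rcases Sym2.eq_iff.1 e1 with ⟨p, q⟩ | ⟨p, q⟩
      · have : u = v := by
          have := h2 u w huw
          rw [← p, hx] at this
          exact (Option.some.inj this).symm
        subst this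
        exact ⟨w, huw, main w huw he⟩
      · have : w = v := by
          have := h3 u w huw
          rw [← p, hx] at this
          exact (Option.some.inj this).symm
        subst this
        exact ⟨u, huw.symm, main u huw.symm (by rw [Sym2.eq_swap]; exact he)⟩
  refine Finset.sum_bij_ne_zero
    (fun w hw _ => (⟨a v w (Finset.mem_filter.1 hw).2, b v w (Finset.mem_filter.1 hw).2⟩ :
      Σ _ : W, W)) ?_ ?_ ?_ ?_
  · intro w hw _
    have hw' := (Finset.mem_filter.1 hw).2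
    simp only [Finset.mem_filter, Finset.mem_sigma, Finset.mem_univ, true_and, Finset.mem_compl]
    refine ⟨⟨h2 v w hw', ?_⟩, h1 v w hw'⟩
    rw [h3 v w hw']
    exact fun h => hw'.ne (Option.some.inj h).symm
  · intro w hw _ w' hw' _ h
    have h5 : b v w (Finset.mem_filter.1 hw).2 = b v w' (Finset.mem_filter.1 hw').2 := by
      simpa using (Sigma.mk.inj_iff.1 h).2
    have := h3 v w (Finset.mem_filter.1 hw).2
    rw [h5, h3] at this
    exact (Option.some.inj this).symm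
  · rintro ⟨x, y⟩ hxy hs
    simp only [Finset.mem_filter, Finset.mem_sigma, Finset.mem_univ, true_and,
      Finset.mem_compl] at hxy
    obtain ⟨w, hw, e1, e2⟩ := key x y hxy.2 hxy.1.1 hxy.1.2 hs
    refine ⟨w, by simpa using hw, ?_, ?_⟩
    · show S (ψ s(v, w)) ≠ 0
      rw [h4 v w hw, e1, e2]
      exact hs
    · simp only [e1, e2]
  · intro w hw _
    exact congrArg S (h4 _ _ _)

theorem PD.minor {W : Type} [Fintype W] {H : SimpleGraph W} {G : SimpleGraph V}
    (π : W → Option V)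
    (hc : ∀ v a b, π a = some v → π b = some v →
      ReflTransGen (fun x y => H.Adj x y ∧ π x = some v ∧ π y = some v) a b)
    (he : ∀ u v, G.Adj u v → ∃ a b, H.Adj a b ∧ π a = some u ∧ π b = some v) (h : PD H) :
    PD G := by
  classical
  obtain ⟨D⟩ := h
  by_cases hW : IsEmpty W
  · refine ⟨⟨Unit, fun _ => (), fun _ => (), fun S => ⟨fun _ => ⟨fun _ => 0, fun u v huv => ?_⟩,
      fun _ v => bd_none fun w hw => ?_⟩⟩⟩
    · obtain ⟨a, -⟩ := he u v huv
      exact hW.elim a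
    · obtain ⟨a, -⟩ := he v w hw
      exact hW.elim a
  obtain ⟨w0⟩ := not_isEmpty_iff.1 hW
  have hex : ∀ e : Sym2 V, ∃ e' : Sym2 W, ∀ u v, G.Adj u v → e = s(u, v) →
      ∃ a b, H.Adj a b ∧ π a = some u ∧ π b = some v ∧ e' = s(a, b) := by
    intro e
    induction e using Sym2.ind with
    | _ x y =>
      by_cases hxy : G.Adj x y
      · obtain ⟨a, b, h1, h2, h3⟩ := he x y hxy
        refine ⟨s(a, b), fun u v _ e => ?_⟩
        rcases Sym2.eq_iff.1 e with ⟨rfl, rfl⟩ | ⟨rfl, rfl⟩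
        · exact ⟨a, b, h1, h2, h3, rfl⟩
        · exact ⟨b, a, h1.symm, h3, h2, Sym2.eq_swap⟩
      · refine ⟨s(w0, w0), fun u v huv e => ?_⟩
        rcases Sym2.eq_iff.1 e with ⟨rfl, rfl⟩ | ⟨rfl, rfl⟩
        · exact absurd huv hxy
        · exact absurd huv.symm hxy
  choose ψ hψ using hex
  have hψ' : ∀ u v, G.Adj u v →
      ∃ a b, H.Adj a b ∧ π a = some u ∧ π b = some v ∧ ψ s(u, v) = s(a, b) :=
    fun u v huv => hψ _ u v huv rfl
  have hinj : ∀ u v x y, G.Adj u v → G.Adj x y → ψ s(u, v) = ψ s(x, y) → s(u, v) = s(x, y) := by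
    intro u v x y h1 h2 e
    obtain ⟨a, b, -, p1, p2, p3⟩ := hψ' u v h1
    obtain ⟨c, d, -, q1, q2, q3⟩ := hψ' x y h2
    rw [p3, q3] at e
    rcases Sym2.eq_iff.1 e with ⟨rfl, rfl⟩ | ⟨rfl, rfl⟩
    · rw [Option.some.inj (p1.symm.trans q1), Option.some.inj (p2.symm.trans q2)]
    · rw [Option.some.inj (p1.symm.trans q2), Option.some.inj (p2.symm.trans q1), Sym2.eq_swap]
  let Kp : W → W → Prop := fun a b =>
    (∃ v, π a = some v ∧ π b = some v) ∨ ∃ u v, G.Adj u v ∧ ψ s(u, v) = s(a, b)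
  let Rl : D.Fc → D.Fc → Prop := fun f g =>
    ∃ a b, H.Adj a b ∧ ¬ Kp a b ∧ f = D.l s(a, b) ∧ g = D.r s(a, b)
  refine ⟨⟨Quot Rl, fun e => Quot.mk _ (D.l (ψ e)), fun e => Quot.mk _ (D.r (ψ e)),
    fun S => ⟨fun hS => ?_, ?_⟩⟩⟩
  · let S0 : Sym2 W → ZMod 2 := fun e' =>
      if h : ∃ e ∈ G.edgeSet, ψ e = e' then S h.choose else 0
    have hS0 : ∀ u v, G.Adj u v → S0 (ψ s(u, v)) = S s(u, v) := by
      intro u v huv
      have h : ∃ e ∈ G.edgeSet, ψ e = ψ s(u, v) := ⟨_, huv, rfl⟩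
      simp only [S0, dif_pos h]
      obtain ⟨h1, h2⟩ := h.choose_spec
      generalize h.choose = e at h1 h2
      induction e using Sym2.ind with
      | _ x y => rw [hinj x y u v h1 huv h2]
    have hS1 : ∀ a b, S0 s(a, b) ≠ 0 → ∃ u v, G.Adj u v ∧ ψ s(u, v) = s(a, b) := by
      intro a b h0
      by_cases h : ∃ e ∈ G.edgeSet, ψ e = s(a, b)
      · obtain ⟨e, h1, h2⟩ := h
        induction e using Sym2.ind with
        | _ x y => exact ⟨x, y, h1, h2⟩
      · simp only [S0, dif_neg h, ne_eq, not_true_eq_false] at h0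
    have hJ : ∀ v, ∃ J : Sym2 W → ZMod 2,
        (∀ e, J e ≠ 0 → ∃ x y, (H.Adj x y ∧ π x = some v ∧ π y = some v) ∧ e = s(x, y)) ∧
        ∀ a, bd H J a = if π a = some v then bd H S0 a else 0 := by
      intro v
      refine exists_tjoin (fun _ _ h => h.1) _ (fun a b ha hb => hc v a b ?_ ?_) ?_
      · by_contra h
        simp [h] at ha
      · by_contra h
        simp [h] at hb
      · rw [← Finset.sum_filter, Minor_sum π ψ hψ' S0 (fun a b _ h => Or.inr (hS1 a b h)) v,
          bd_congr (T := S) fun w hw => hS0 v w hw]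
        exact hS v
    choose J hJ1 hJ2 using hJ
    have hev : ∀ a, bd H (S0 + fun e => ∑ v, J v e) a = 0 := by
      intro a
      rw [bd_add, bd_sum]
      simp only [hJ2]
      cases hπ : π a with
      | none =>
        simp only [reduceCtorEq, if_false, Finset.sum_const_zero, add_zero]
        refine bd_none fun w _ => ?_
        by_contra h
        obtain ⟨u, v, huv, e⟩ := hS1 a w h
        obtain ⟨c, d, -, q1, q2, q3⟩ := hψ' u v huv
        rw [q3] at e
        rcases Sym2.eq_iff.1 e with ⟨rfl, rfl⟩ | ⟨rfl, rfl⟩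
        · simp [hπ] at q1
        · simp [hπ] at q2
      | some v => simp [z2_add_self]
    obtain ⟨c, hcb⟩ := (D.cob _).1 hev
    refine ⟨Quot.lift c ?_, fun u v huv => ?_⟩
    · rintro f g ⟨a, b, hab, hk, rfl, rfl⟩
      have h1 := hcb a b hab
      have h2 : S0 s(a, b) = 0 := by
        by_contra h
        exact hk (Or.inr (hS1 a b h))
      have h3 : ∑ v, J v s(a, b) = 0 := by
        refine Finset.sum_eq_zero fun v _ => ?_
        by_contra h
        obtain ⟨x, y, ⟨-, p1, p2⟩, e⟩ := hJ1 v _ h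
        rcases Sym2.eq_iff.1 e with ⟨rfl, rfl⟩ | ⟨rfl, rfl⟩
        · exact hk (Or.inl ⟨v, p1, p2⟩)
        · exact hk (Or.inl ⟨v, p2, p1⟩)
      simp only [Pi.add_apply, h2, h3, add_zero] at h1
      generalize c (D.l s(a, b)) = p at h1
      generalize c (D.r s(a, b)) = q at h1
      revert p q
      decide
    · obtain ⟨a, b, hab, p1, p2, e⟩ := hψ' u v huv
      have h1 := hcb a b hab
      have h3 : ∑ z, J z s(a, b) = 0 := by
        refine Finset.sum_eq_zero fun z _ => ?_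
        by_contra h
        obtain ⟨x, y, ⟨-, q1, q2⟩, e⟩ := hJ1 z _ h
        rcases Sym2.eq_iff.1 e with ⟨rfl, rfl⟩ | ⟨rfl, rfl⟩
        · exact huv.ne (Option.some.inj ((p1.symm.trans q1).trans (q2.symm.trans p2)))
        · exact huv.ne (Option.some.inj ((p1.symm.trans q2).trans (q1.symm.trans p2)))
      simp only [Pi.add_apply, h3, add_zero] at h1
      rw [← hS0 u v huv, e]
      exact h1
  · rintro ⟨c, hcb⟩ v
    let T : Sym2 W → ZMod 2 := fun e => c (Quot.mk _ (D.l e)) + c (Quot.mk _ (D.r e))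
    have hT : ∀ a, bd H T a = 0 := (D.cob T).2 ⟨fun f => c (Quot.mk _ f), fun _ _ _ => rfl⟩
    have h1 := Minor_sum π ψ hψ' T (fun a b hab h => by
      by_contra hk
      apply h
      have : Quot.mk Rl (D.l s(a, b)) = Quot.mk Rl (D.r s(a, b)) :=
        Quot.sound ⟨a, b, hab, hk, rfl, rfl⟩
      simp only [T, this, z2_add_self]) v
    rw [Finset.sum_eq_zero fun a _ => hT a] at h1
    rw [bd_congr (T := fun e => T (ψ e)) fun w hw => hcb v w hw]
    exact h1.symm

theorem PD.mono {G G' : SimpleGraph V} (h : PD G) (hG : G' ≤ G) : PD G' := by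
  refine PD.minor some (fun v a b ha hb => ?_) (fun u v huv => ⟨u, v, hG huv, rfl, rfl⟩) h
  rw [Option.some.inj (ha.trans hb.symm)]

theorem PO.mono {G G' : SimpleGraph V} {O O' : Set V} (h : PO G O) (hG : G' ≤ G)
    (hO : ∀ v ∈ O', v ∈ G'.support → v ∈ O) : PO G' O' := by
  refine PD.mono h fun a b hab => ?_
  cases a <;> cases b
  · exact hab
  · exact ⟨hO _ hab.1 hab.2, SimpleGraph.support_mono hG hab.2⟩
  · exact ⟨hO _ hab.1 hab.2, SimpleGraph.support_mono hG hab.2⟩
  · exact hG hab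

theorem PO.pd {G : SimpleGraph V} {O : Set V} (h : PO G O) : PD G := by
  refine PD.minor (H := apex G O) id (fun v a b ha hb => ?_)
    (fun u v huv => ⟨some u, some v, huv, rfl, rfl⟩) h
  rw [show a = b from ha.trans hb.symm]

open Classical in
theorem bd_apex_some (G : SimpleGraph V) (O : Set V) (S : Sym2 (Option V) → ZMod 2) (v : V) :
    bd (apex G O) S (some v) = bd G (fun e => S (e.map some)) v +
      if v ∈ O ∧ v ∈ G.support then S s(some v, none) else 0 := by
  unfold bd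
  rw [Fintype.sum_option, add_comm]
  refine congrArg₂ (· + ·) (Finset.sum_congr rfl fun w _ => ?_) ?_
  · exact if_congr Iff.rfl rfl rfl
  · exact if_congr Iff.rfl rfl rfl

open Classical in
theorem bd_apex_none (G : SimpleGraph V) (O : Set V) (S : Sym2 (Option V) → ZMod 2) :
    bd (apex G O) S none = ∑ v, if v ∈ O ∧ v ∈ G.support then S s(some v, none) else 0 := by
  unfold bd
  rw [Fintype.sum_option, if_neg (apex G O).irrefl, zero_add]
  refine Finset.sum_congr rfl fun w _ => ?_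
  exact if_congr Iff.rfl (by rw [Sym2.eq_swap]) rfl

/-- forget the apex -/
def unsome (v0 : V) (e : Sym2 (Option V)) : Sym2 V := e.map fun a => a.getD v0

theorem PD.single {G : SimpleGraph V} (h : PD G) (v : V) : PO G {v} := by
  classical
  obtain ⟨D⟩ := h
  refine ⟨⟨D.Fc, fun e => D.l (unsome v e),
    fun e => if none ∈ e then D.l (unsome v e) else D.r (unsome v e), fun S => ⟨fun hS => ?_, ?_⟩⟩⟩
  · have h0 : v ∈ G.support → S s(some v, none) = 0 := by
      intro hv
      have := hS none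
      rw [bd_apex_none, Finset.sum_eq_single v] at this
      · simpa [hv] using this
      · intro w _ hw
        simp [hw]
      · simp
    obtain ⟨c, hc⟩ := (D.cob fun e => S (e.map some)).1 fun w => by
      have := hS (some w)
      rw [bd_apex_some] at this
      by_cases hw : w ∈ ({v} : Set V) ∧ w ∈ G.support
      · obtain ⟨rfl, h2⟩ := hw
        simpa [h0 h2] using this
      · simpa only [if_neg hw, add_zero] using this
    refine ⟨c, fun a b hab => ?_⟩
    cases a <;> cases b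
    · exact hab.elim
    · obtain ⟨rfl, h2⟩ := hab
      rw [Sym2.eq_swap, h0 h2]
      simp [z2_add_self]
    · obtain ⟨rfl, h2⟩ := hab
      rw [h0 h2]
      simp [z2_add_self]
    · simpa [unsome] using hc _ _ hab
  · rintro ⟨c, hc⟩
    have h0 : ∀ w, w ∈ ({v} : Set V) ∧ w ∈ G.support → S s(some w, none) = 0 := by
      intro w hw
      rw [hc (some w) none hw]
      simp [z2_add_self]
    intro a
    cases a with
    | none =>
      rw [bd_apex_none]
      refine Finset.sum_eq_zero fun w _ => ?_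
      split_ifs with hw
      · exact h0 w hw
      · rfl
    | some w =>
      rw [bd_apex_some, (D.cob fun e => S (e.map some)).2
        ⟨c, fun x y hxy => by simpa [unsome] using hc (some x) (some y) hxy⟩, zero_add]
      split_ifs with hw
      · exact h0 w hw
      · rfl

/-- delete a set `X` every vertex of which is tied to the outer face inside `X` -/
theorem PO.absorb {G : SimpleGraph V} {O : Set V} (h : PO G O) (X : Set V)
    (hX : ∀ x ∈ X, x ∈ G.support → ∃ o ∈ X, o ∈ O ∧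
      ReflTransGen (fun a b => G.Adj a b ∧ a ∈ X ∧ b ∈ X) o x) :
    PO (del G X) {v | v ∈ O ∨ ∃ x ∈ X, G.Adj x v} := by
  classical
  let π : Option V → Option (Option V) := fun a => match a with
    | none => some none
    | some v => if v ∈ X ∧ v ∈ G.support then some none else some (some v)
  have hπ : ∀ v, v ∉ X → π (some v) = some (some v) := fun v hv => if_neg fun h => hv h.1
  have hπ2 : ∀ v, v ∈ X → v ∈ G.support → π (some v) = some none := fun v h1 h2 => if_pos ⟨h1, h2⟩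
  refine PD.minor (H := apex G O) π ?_ ?_ h
  · intro v a b ha hb
    cases v with
    | some v =>
      have : ∀ a, π a = some (some v) → a = some v := by
        intro a ha
        cases a with
        | none => simp [π] at ha
        | some u =>
          simp only [π] at ha
          split_ifs at ha
          · simp at ha
          · exact Option.some.inj ha
      rw [this a ha, this b hb]
    | none =>
      have : ∀ a, π a = some none → ReflTransGen
          (fun x y => (apex G O).Adj x y ∧ π x = some none ∧ π y = some none) none a := by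
        intro a ha
        cases a with
        | none => exact ReflTransGen.refl
        | some u =>
          have hu : u ∈ X ∧ u ∈ G.support := by
            by_contra hn
            simp only [π, if_neg hn] at ha
            simp at ha
          obtain ⟨o, ho1, ho2, hr⟩ := hX u hu.1 hu.2
          have ho3 : o ∈ G.support := by
            rcases hr.cases_head with rfl | ⟨z, hz, -⟩
            · exact hu.2
            · exact ⟨z, hz.1⟩
          refine ReflTransGen.head (b := some o) ⟨⟨ho2, ho3⟩, rfl, hπ2 o ho1 ho3⟩ ?_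
          clear ha hu
          induction hr with
          | refl => exact ReflTransGen.refl
          | tail _ h2 ih =>
            exact ih.tail ⟨h2.1, hπ2 _ h2.2.1 ⟨_, h2.1⟩, hπ2 _ h2.2.2 ⟨_, h2.1.symm⟩⟩
      exact (rtg_symm (fun x y h => ⟨h.1.symm, h.2.2, h.2.1⟩) (this a ha)).trans (this b hb)
  · have hap : ∀ v, (apex (del G X) {v | v ∈ O ∨ ∃ x ∈ X, G.Adj x v}).Adj none (some v) →
        ∃ a b, (apex G O).Adj a b ∧ π a = some none ∧ π b = some (some v) := by
      rintro v ⟨h1, w, h2, h3, -⟩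
      rcases h1 with h1 | ⟨x, hx, hxv⟩
      · exact ⟨none, some v, ⟨h1, w, h2⟩, rfl, hπ v h3⟩
      · exact ⟨some x, some v, hxv, hπ2 x hx ⟨v, hxv⟩, hπ v h3⟩
    intro a b hab
    cases a <;> cases b
    · exact hab.elim
    · exact hap _ hab
    · obtain ⟨a, b, h1, h2, h3⟩ := hap _ hab.symm
      exact ⟨b, a, h1.symm, h3, h2⟩
    · exact ⟨some _, some _, hab.1, hπ _ hab.2.1, hπ _ hab.2.2⟩

/-- delete outer vertices -/
theorem PO.delete {G : SimpleGraph V} {O : Set V} (h : PO G O) {X : Set V} (hX : X ⊆ O) :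
    PO (del G X) {v | v ∈ O ∨ ∃ x ∈ X, G.Adj x v} :=
  h.absorb X fun x hx _ => ⟨x, hx, hX hx, ReflTransGen.refl⟩

/-- contract the edge `w y` -/
theorem PO.contract {G : SimpleGraph V} {O : Set V} (h : PO G O) {w y : V} (hw : G.Adj w y) :
    PO (ident G y w) {v | v ∈ O ∨ (v = w ∧ y ∈ O)} := by
  classical
  let π : Option V → Option (Option V) := fun a => if a = some y then some (some w) else some a
  have hy : π (some y) = some (some w) := if_pos rfl
  have hπ : ∀ v, v ≠ y → π (some v) = some (some v) :=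
    fun v hv => if_neg fun h => hv (Option.some.inj h)
  have h0 : π none = some none := if_neg (by simp)
  refine PD.minor (H := apex G O) π ?_ ?_ h
  · intro v a b ha hb
    have : ∀ a, π a = some v → a = v ∨ (a = some y ∧ v = some w) := by
      intro a ha
      simp only [π] at ha
      split_ifs at ha with h1
      · exact Or.inr ⟨h1, (Option.some.inj ha).symm⟩
      · exact Or.inl (Option.some.inj ha)
    rcases this a ha with h1 | ⟨h1, h2⟩ <;> rcases this b hb with h3 | ⟨h3, h4⟩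
    · rw [h1, h3]
    · subst h1 h3 h4
      exact ReflTransGen.single ⟨hw, ha, hb⟩
    · subst h1 h3 h2
      exact ReflTransGen.single ⟨hw.symm, ha, hb⟩
    · rw [h1, h3]
  · have hap : ∀ v, (apex (ident G y w) {v | v ∈ O ∨ (v = w ∧ y ∈ O)}).Adj none (some v) →
        ∃ a b, (apex G O).Adj a b ∧ π a = some none ∧ π b = some (some v) := by
      rintro v ⟨h1, z, h2, h3, h4, h5⟩
      rcases h1 with h1 | ⟨rfl, h1⟩
      · refine ⟨none, some v, ⟨h1, ?_⟩, h0, hπ v h3⟩
        rcases h5 with h5 | ⟨rfl, -⟩ | ⟨-, h5⟩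
        · exact ⟨z, h5⟩
        · exact ⟨y, hw⟩
        · exact ⟨y, h5⟩
      · exact ⟨none, some y, ⟨h1, v, hw.symm⟩, h0, hy⟩
    intro a b hab
    cases a <;> cases b
    · exact hab.elim
    · exact hap _ hab
    · obtain ⟨a, b, h1, h2, h3⟩ := hap _ hab.symm
      exact ⟨b, a, h1.symm, h3, h2⟩
    · obtain ⟨h2, h3, h4, h5 | ⟨rfl, h5⟩ | ⟨rfl, h5⟩⟩ := hab
      · exact ⟨some _, some _, h5, hπ _ h3, hπ _ h4⟩
      · exact ⟨some y, some _, h5, hy, hπ _ h4⟩
      · exact ⟨some _, some y, h5, hπ _ h3, hy⟩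

omit [Fintype V] in
/-- a graph that is not 2-connected has a piece `A` that hangs on at most one vertex `x` -/
theorem exists_piece {G : SimpleGraph V}
    (h3 : ∃ a ∈ G.support, ∃ b ∈ G.support, ∃ c ∈ G.support, a ≠ b ∧ a ≠ c ∧ b ≠ c)
    (h : ¬ TwoConn G) : ∃ (x : V) (A : Set V), x ∉ A ∧ A.Nonempty ∧ A ⊆ G.support ∧
      (∀ a ∈ A, ∀ w, G.Adj a w → w ∈ A ∨ w = x) ∧
      (∀ a ∈ A, ∀ b ∈ A, ReflTransGen (fun u v => G.Adj u v ∧ u ∈ A ∧ v ∈ A) a b) ∧
      ∃ b ∈ G.support, b ∉ A ∧ b ≠ x := by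
  have h' : ¬ ∀ x a b, a ∈ G.support → b ∈ G.support → a ≠ x → b ≠ x →
      ReflTransGen (fun u v => G.Adj u v ∧ u ≠ x ∧ v ≠ x) a b := fun hh => h ⟨h3, hh⟩
  push Not at h'
  obtain ⟨x, a, b, ha, hb, hax, hbx, hn⟩ := h'
  let A : Set V := {z | ReflTransGen (fun u v => G.Adj u v ∧ u ≠ x ∧ v ≠ x) a z}
  have hA : ∀ z ∈ A, z ≠ x ∧ z ∈ G.support := by
    intro z hz
    rcases ReflTransGen.cases_tail hz with rfl | ⟨u, -, hu⟩
    · exact ⟨hax, ha⟩
    · exact ⟨hu.2.2, u, hu.1.symm⟩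
  have hr : ∀ z ∈ A, ReflTransGen (fun u v => G.Adj u v ∧ u ∈ A ∧ v ∈ A) a z := by
    intro z hz
    induction hz with
    | refl => exact ReflTransGen.refl
    | tail h1 h2 ih => exact ih.tail ⟨h2.1, h1, h1.tail h2⟩
  refine ⟨x, A, fun hx => (hA x hx).1 rfl, ⟨a, ReflTransGen.refl⟩, fun z hz => (hA z hz).2,
    fun z hz w hw => ?_, fun u hu v hv => ?_, b, hb, hn, hbx⟩
  · by_cases hwx : w = x
    · exact Or.inr hwx
    · exact Or.inl (ReflTransGen.tail hz ⟨hw, (hA z hz).1, hwx⟩)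
  · exact (rtg_symm (fun x y h => ⟨h.1.symm, h.2.2, h.2.1⟩) (hr u hu)).trans (hr v hv)

end Pool.Agent.Pl
end

-- merged part: Pool.Agent.Work.MP_5bd7f1_co.PD.Grid
section
/-! Every finite induced subgraph of the square grid has an abstract dual.
Plan: faces = cells `ℤ × ℤ` (cell `(i,j)` has lower left corner `(i,j)`) modulo the relation that
joins the two cells at a grid edge with an end outside `s` (`Quot`).  Extend `S` by zero to
`h i j` (edge `(i,j),(i+1,j)`) and `v i j` (edge `(i,j),(i,j+1)`); `bd` at `(i,j)` is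
`h i j + h (i-1) j + v i j + v i (j-1)`.  From an even `S` take `c (i,j)` = sum of `v i' j` over
`i' ≤ i` (finite: sum over `Finset.Icc (-N) i` with `s` inside the box of size `N`); telescoping
gives `c (i,j) + c (i,j-1) = h i j`.  Conversely the four cells round a lattice point cancel. -/

set_option autoImplicit false

namespace Pool.Agent.Pl

/-- the square grid -/
def grid : SimpleGraph (ℤ × ℤ) :=
  SimpleGraph.fromRel fun p q => q = (p.1 + 1, p.2) ∨ q = (p.1, p.2 + 1)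

theorem Grid_adj {p q : ℤ × ℤ} : grid.Adj p q ↔
    q = (p.1 + 1, p.2) ∨ q = (p.1 - 1, p.2) ∨ q = (p.1, p.2 + 1) ∨ q = (p.1, p.2 - 1) := by
  obtain ⟨a, b⟩ := p
  obtain ⟨c, d⟩ := q
  simp only [grid, SimpleGraph.fromRel_adj, ne_eq, Prod.mk.injEq]
  omega

/-- the cell above or to the right of an edge -/
def Grid_L : Sym2 (ℤ × ℤ) → ℤ × ℤ :=
  Sym2.lift ⟨fun p q => (min p.1 q.1, min p.2 q.2), fun _ _ =>
    Prod.ext (min_comm _ _) (min_comm _ _)⟩

/-- the cell below or to the left of an edge -/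
def Grid_R : Sym2 (ℤ × ℤ) → ℤ × ℤ :=
  Sym2.lift ⟨fun p q => (max p.1 q.1 - 1, max p.2 q.2 - 1), fun p q => by
    simp only [max_comm]⟩

/-- the sum over the four edges at a lattice point -/
def Grid_D (E : Sym2 (ℤ × ℤ) → ZMod 2) (i j : ℤ) : ZMod 2 :=
  E s((i, j), (i + 1, j)) + E s((i, j), (i - 1, j)) + E s((i, j), (i, j + 1)) +
    E s((i, j), (i, j - 1))

theorem Grid_prim (f : ℤ → ZMod 2) (N : ℤ) (h : ∀ i ≤ N, f i = 0) :
    ∃ g : ℤ → ZMod 2, (∀ i, f i = g i + g (i - 1)) ∧ ∀ i ≤ N, g i = 0 := by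
  have h0 : ∀ i ≤ N, ∑ k ∈ Finset.Ioc N i, f k = 0 := fun i hi => by
    rw [Finset.Ioc_eq_empty (by omega), Finset.sum_empty]
  refine ⟨fun i => ∑ k ∈ Finset.Ioc N i, f k, fun i => ?_, h0⟩
  beta_reduce
  by_cases hi : i ≤ N
  · rw [h0 i hi, h0 _ (by omega), h i hi, add_zero]
  · have e : Finset.Ioc N i = insert i (Finset.Ioc N (i - 1)) := by
      ext k
      simp only [Finset.mem_Ioc, Finset.mem_insert]
      omega
    rw [e, Finset.sum_insert (by simp), add_assoc, z2_add_self, add_zero]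

theorem Grid_cut (E : Sym2 (ℤ × ℤ) → ZMod 2) (c : ℤ × ℤ → ZMod 2) :
    (∀ p q, grid.Adj p q → E s(p, q) = c (Grid_L s(p, q)) + c (Grid_R s(p, q))) ↔
      (∀ i j, E s((i, j), (i + 1, j)) = c (i, j) + c (i, j - 1)) ∧
      ∀ i j, E s((i, j), (i, j + 1)) = c (i, j) + c (i - 1, j) := by
  constructor
  · intro h
    refine ⟨fun i j => ?_, fun i j => ?_⟩
    · simpa [Grid_L, Grid_R] using h (i, j) (i + 1, j) (by simp [Grid_adj])
    · simpa [Grid_L, Grid_R] using h (i, j) (i, j + 1) (by simp [Grid_adj])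
  · rintro ⟨h1, h2⟩ ⟨i, j⟩ q h
    rcases Grid_adj.1 h with rfl | rfl | rfl | rfl
    · simpa [Grid_L, Grid_R] using h1 i j
    · rw [Sym2.eq_swap]
      simpa [Grid_L, Grid_R] using h1 (i - 1) j
    · simpa [Grid_L, Grid_R] using h2 i j
    · rw [Sym2.eq_swap]
      simpa [Grid_L, Grid_R] using h2 i (j - 1)

theorem Grid_lat (E : Sym2 (ℤ × ℤ) → ZMod 2) (N : ℤ) (hN : ∀ p q, p.1 ≤ N → E s(p, q) = 0) :
    (∀ i j, Grid_D E i j = 0) ↔ ∃ c : ℤ × ℤ → ZMod 2,
      ∀ p q, grid.Adj p q → E s(p, q) = c (Grid_L s(p, q)) + c (Grid_R s(p, q)) := by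
  have e1 : ∀ i j : ℤ, E s((i, j), (i - 1, j)) = E s((i - 1, j), (i - 1 + 1, j)) := fun i j => by
    rw [Sym2.eq_swap, sub_add_cancel]
  have e2 : ∀ i j : ℤ, E s((i, j), (i, j - 1)) = E s((i, j - 1), (i, j - 1 + 1)) := fun i j => by
    rw [Sym2.eq_swap, sub_add_cancel]
  constructor
  · intro h
    choose g h1 h2 using fun j => Grid_prim (fun i => E s((i, j), (i, j + 1))) N
      fun i hi => hN _ _ hi
    refine ⟨fun p => g p.2 p.1,
      (Grid_cut E fun p => g p.2 p.1).2 ⟨fun i j => ?_, fun i j => h1 j i⟩⟩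
    show _ = g j i + g (j - 1) i
    have h0 : ∀ i ≤ N, E s((i, j), (i + 1, j)) = g j i + g (j - 1) i := fun i hi => by
      rw [hN _ _ hi, h2 _ _ hi, h2 _ _ hi, add_zero]
    rcases le_total i N with hi | hi
    · exact h0 i hi
    · induction i, hi using Int.le_induction with
      | base => exact h0 N le_rfl
      | succ i hi ih =>
        have h3 := h (i + 1) j
        rw [Grid_D, e1, e2, h1, h1, add_sub_cancel_right, ih] at h3
        revert h3
        generalize E s((i + 1, j), (i + 1 + 1, j)) = a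
        generalize g j i = b, g (j - 1) i = b', g j (i + 1) = d, g (j - 1) (i + 1) = d'
        revert a b b' d d'
        decide
  · rintro ⟨c, h⟩ i j
    obtain ⟨h1, h2⟩ := (Grid_cut E c).1 h
    rw [Grid_D, e1, e2, h1, h1, h2, h2]
    generalize c (i, j) = a, c (i, j - 1) = b, c (i - 1, j) = d, c (i - 1, j - 1) = d'
    revert a b d d'
    decide

/-- extension by zero -/
def Grid_E (s : Finset (ℤ × ℤ)) (S : Sym2 s → ZMod 2) : Sym2 (ℤ × ℤ) → ZMod 2 :=
  Sym2.lift ⟨fun p q => if h : p ∈ s ∧ q ∈ s then S s(⟨p, h.1⟩, ⟨q, h.2⟩) else 0, fun p q => by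
    by_cases hp : p ∈ s <;> by_cases hq : q ∈ s <;> simp [hp, hq, Sym2.eq_swap]⟩

theorem Grid_E_in (s : Finset (ℤ × ℤ)) (S : Sym2 s → ZMod 2) (u v : s) :
    Grid_E s S s(u.1, v.1) = S s(u, v) := by
  simp [Grid_E]

theorem Grid_E_out (s : Finset (ℤ × ℤ)) (S : Sym2 s → ZMod 2) {p q : ℤ × ℤ}
    (h : ¬ (p ∈ s ∧ q ∈ s)) : Grid_E s S s(p, q) = 0 := dif_neg h

theorem Grid_bd (s : Finset (ℤ × ℤ)) (S : Sym2 s → ZMod 2) (v : s) :
    bd (grid.comap (Subtype.val : s → ℤ × ℤ)) S v = Grid_D (Grid_E s S) v.1.1 v.1.2 := by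
  classical
  have e : bd (grid.comap (Subtype.val : s → ℤ × ℤ)) S v =
      ∑ w ∈ s, if grid.Adj v.1 w then Grid_E s S s(v.1, w) else 0 := by
    rw [← Finset.sum_coe_sort s, bd]
    refine Finset.sum_congr rfl fun w _ => ?_
    rw [Grid_E_in]
    exact if_congr Iff.rfl rfl rfl
  obtain ⟨⟨i, j⟩, hv⟩ := v
  rw [e, Finset.sum_congr_of_eq_on_inter (s₂ := {(i + 1, j), (i - 1, j), (i, j + 1), (i, j - 1)})
    (g := fun w => Grid_E s S s((i, j), w))]
  · rw [Finset.sum_insert (by simp; omega), Finset.sum_insert (by simp),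
      Finset.sum_pair (by simp; omega), Grid_D]
    ring
  · intro a _ ha
    rw [if_neg]
    simpa [Grid_adj] using ha
  · intro a _ ha
    exact Grid_E_out s S fun h => ha h.2
  · intro a _ ha
    rw [if_pos]
    simpa [Grid_adj] using ha

/-- two cells at an edge with an end outside `s` -/
def Grid_rel (s : Finset (ℤ × ℤ)) (a b : ℤ × ℤ) : Prop :=
  ∃ p q, grid.Adj p q ∧ ¬ (p ∈ s ∧ q ∈ s) ∧ a = Grid_L s(p, q) ∧ b = Grid_R s(p, q)

theorem pd_grid (s : Finset (ℤ × ℤ)) : PD (grid.comap (Subtype.val : s → ℤ × ℤ)) := by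
  obtain ⟨N, hN⟩ := (s.image Prod.fst).bddBelow
  refine ⟨⟨Quot (Grid_rel s), fun e => Quot.mk _ (Grid_L (e.map Subtype.val)),
    fun e => Quot.mk _ (Grid_R (e.map Subtype.val)), fun S => ?_⟩⟩
  have h1 : (∀ v, bd (grid.comap (Subtype.val : s → ℤ × ℤ)) S v = 0) ↔
      ∀ i j, Grid_D (Grid_E s S) i j = 0 := by
    refine ⟨fun h i j => ?_, fun h v => (Grid_bd s S v).trans (h _ _)⟩
    by_cases hp : (i, j) ∈ s
    · exact (Grid_bd s S ⟨_, hp⟩).symm.trans (h _)
    · simp [Grid_D, Grid_E, hp]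
  rw [h1, Grid_lat _ (N - 1) fun p q hp => Grid_E_out s S fun h => by
    have := hN (Finset.mem_coe.2 (Finset.mem_image_of_mem Prod.fst h.1))
    omega]
  constructor
  · rintro ⟨c, h⟩
    refine ⟨Quot.lift c ?_, fun u v huv => (Grid_E_in s S u v).symm.trans (h _ _ huv)⟩
    rintro _ _ ⟨p, q, h2, h3, rfl, rfl⟩
    have h4 := h p q h2
    rw [Grid_E_out s S h3] at h4
    revert h4
    generalize c (Grid_L s(p, q)) = a, c (Grid_R s(p, q)) = b
    revert a b
    decide
  · rintro ⟨c, h⟩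
    refine ⟨fun a => c (Quot.mk _ a), fun p q h2 => ?_⟩
    by_cases h3 : p ∈ s ∧ q ∈ s
    · exact (Grid_E_in s S ⟨p, h3.1⟩ ⟨q, h3.2⟩).trans (h _ _ h2)
    · beta_reduce
      rw [Grid_E_out s S h3, Quot.sound (r := Grid_rel s) ⟨p, q, h2, h3, rfl, rfl⟩, z2_add_self]

end Pool.Agent.Pl
end

-- merged part: Pool.Agent.Work.MP_5bd7f1_co.PD.Near
section
/-! Lattice points near a connected set are connected in the grid.
Plan: for one point `x` the set `near h {x}` is a nonempty product of two integer intervals, hence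
connected; the condition is open in `x`, so the class of `near h {x}` is locally constant on `K`
(`IsPreconnected.induction₂'` or `isPreconnected` with a locally constant function). -/

set_option autoImplicit false
open Relation

namespace Pool.Agent.Pl

/-- lattice points of mesh `h` at distance less than `2 h` from `K` (sup metric) -/
def near (h : ℝ) (K : Set (ℝ × ℝ)) : Set (ℤ × ℤ) :=
  {p | ∃ x ∈ K, dist ((h * p.1, h * p.2) : ℝ × ℝ) x < 2 * h}

theorem near_nonempty {h : ℝ} (hh : 0 < h) (x : ℝ × ℝ) : (near h {x}).Nonempty := by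
  have key : ∀ t : ℝ, dist (h * (⌊t / h⌋ : ℤ)) t < 2 * h := fun t => by
    have h1 := (le_div_iff₀ hh).1 (Int.floor_le (t / h))
    have h2 := (div_lt_iff₀ hh).1 (Int.lt_floor_add_one (t / h))
    rw [Real.dist_eq, abs_lt]
    constructor <;> linarith
  exact ⟨(⌊x.1 / h⌋, ⌊x.2 / h⌋), x, rfl, max_lt (key x.1) (key x.2)⟩

theorem near_mono (h : ℝ) {K L : Set (ℝ × ℝ)} (hKL : K ⊆ L) : near h K ⊆ near h L := by
  rintro p ⟨x, hx, e⟩
  exact ⟨x, hKL hx, e⟩

theorem near_finite {h : ℝ} (hh : 0 < h) {K : Set (ℝ × ℝ)} (hK : Bornology.IsBounded K) :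
    (near h K).Finite := by
  obtain ⟨C, hC⟩ := hK.exists_norm_le
  obtain ⟨N, hN⟩ := exists_int_gt (C / h + 2)
  have key : ∀ (i : ℤ) (t : ℝ), dist (h * i) t < 2 * h → ‖t‖ ≤ C → i ∈ Set.Icc (-N) N := by
    intro i t h1 h2
    rw [Real.dist_eq, abs_lt] at h1
    rw [Real.norm_eq_abs, abs_le] at h2
    have h3 := (div_lt_iff₀ hh).1 (lt_sub_iff_add_lt.2 hN)
    constructor
    · have : ((-N : ℤ) : ℝ) ≤ i := le_of_mul_le_mul_left (by push_cast; linarith) hh
      exact_mod_cast this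
    · have : (i : ℝ) ≤ N := le_of_mul_le_mul_left (by linarith) hh
      exact_mod_cast this
  refine ((Set.finite_Icc (-N) N).prod (Set.finite_Icc (-N) N)).subset ?_
  rintro p ⟨x, hx, e⟩
  obtain ⟨e1, e2⟩ := max_lt_iff.1 e
  exact ⟨key _ _ e1 ((norm_fst_le x).trans (hC x hx)), key _ _ e2 ((norm_snd_le x).trans (hC x hx))⟩

theorem Near_line {α : Type} {R : α → α → Prop} (hR : ∀ a b, R a b → R b a) (c : ℤ → α) {h t : ℝ}
    (hh : 0 < h) (H : ∀ i : ℤ, dist (h * i) t < 2 * h → dist (h * (i + 1 : ℤ)) t < 2 * h →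
      R (c i) (c (i + 1))) {a b : ℤ} (ha : dist (h * a) t < 2 * h) (hb : dist (h * b) t < 2 * h) :
    ReflTransGen R (c a) (c b) := by
  have key : ∀ a b : ℤ, a ≤ b → dist (h * a) t < 2 * h → dist (h * b) t < 2 * h →
      ReflTransGen R (c a) (c b) := by
    intro a b hab ha
    induction b, hab using Int.leInduction with
    | base => exact fun _ => .refl
    | succ b hab ih =>
      intro hb
      have h1 : dist (h * b) t < 2 * h := by
        have h2 := mul_le_mul_of_nonneg_left ((Int.cast_le (R := ℝ)).2 hab) hh.le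
        rw [Real.dist_eq, abs_lt] at ha hb ⊢
        push_cast at hb
        constructor <;> linarith [ha.1, hb.2]
      exact (ih h1).tail (H b h1 hb)
  rcases le_total a b with k | k
  · exact key a b k ha hb
  · exact ReflTransGen.mono (fun _ _ e => hR _ _ e) _ _ (ReflTransGen.swap _ _ (key b a k hb ha))

theorem Near_pt {h : ℝ} (hh : 0 < h) {K : Set (ℝ × ℝ)} {x : ℝ × ℝ} (hx : x ∈ K) {p q : ℤ × ℤ}
    (hp : dist ((h * p.1, h * p.2) : ℝ × ℝ) x < 2 * h)
    (hq : dist ((h * q.1, h * q.2) : ℝ × ℝ) x < 2 * h) :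
    ReflTransGen (fun a b => grid.Adj a b ∧ a ∈ near h K ∧ b ∈ near h K) p q := by
  obtain ⟨p1, p2⟩ := max_lt_iff.1 hp
  obtain ⟨q1, q2⟩ := max_lt_iff.1 hq
  have hs : ∀ a b, (grid.Adj a b ∧ a ∈ near h K ∧ b ∈ near h K) →
      grid.Adj b a ∧ b ∈ near h K ∧ a ∈ near h K := fun a b e => ⟨e.1.symm, e.2.2, e.2.1⟩
  refine (Near_line hs (fun i => (i, p.2)) hh (fun i e1 e2 => ?_) p1 q1).trans
    (Near_line hs (fun j => (q.1, j)) hh (fun j e1 e2 => ?_) p2 q2)
  · exact ⟨by simp [grid], ⟨x, hx, max_lt e1 p2⟩, x, hx, max_lt e2 p2⟩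
  · exact ⟨by simp [grid], ⟨x, hx, max_lt q1 e1⟩, x, hx, max_lt q1 e2⟩

theorem near_conn {h : ℝ} (hh : 0 < h) {K : Set (ℝ × ℝ)} (hK : IsPreconnected K) {p q : ℤ × ℤ}
    (hp : p ∈ near h K) (hq : q ∈ near h K) :
    ReflTransGen (fun a b => grid.Adj a b ∧ a ∈ near h K ∧ b ∈ near h K) p q := by
  obtain ⟨x, hx, hp⟩ := hp
  obtain ⟨y, hy, hq⟩ := hq
  refine hK.induction₂' (fun x y => ∀ p q : ℤ × ℤ, dist ((h * p.1, h * p.2) : ℝ × ℝ) x < 2 * h →
    dist ((h * q.1, h * q.2) : ℝ × ℝ) y < 2 * h →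
    ReflTransGen (fun a b => grid.Adj a b ∧ a ∈ near h K ∧ b ∈ near h K) p q)
    (fun x hx => ?_) (fun x y z _ _ _ h1 h2 p q hp hq => ?_) hx hy p q hp hq
  · obtain ⟨o, _, rfl, ho⟩ := near_nonempty hh x
    filter_upwards [self_mem_nhdsWithin, mem_nhdsWithin_of_mem_nhds
      ((isOpen_lt (continuous_const.dist continuous_id) continuous_const).mem_nhds ho)] with y hy e
    exact ⟨fun p q hp hq => (Near_pt hh hx hp ho).trans (Near_pt hh hy e hq),
      fun p q hp hq => (Near_pt hh hy hp e).trans (Near_pt hh hx ho hq)⟩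
  · obtain ⟨o, _, rfl, ho⟩ := near_nonempty hh y
    exact (h1 p o hp ho).trans (h2 o q ho hq)

theorem near_disj {h : ℝ} {K L : Set (ℝ × ℝ)} (hd : ∀ x ∈ K, ∀ y ∈ L, 4 * h ≤ dist x y) :
    Disjoint (near h K) (near h L) := by
  refine Set.disjoint_left.2 ?_
  rintro p ⟨x, hx, e1⟩ ⟨y, hy, e2⟩
  linarith [hd x hx y hy, dist_triangle_left x y ((h * p.1, h * p.2) : ℝ × ℝ)]

end Pool.Agent.Pl
end

-- merged part: Pool.Agent.Work.MP_5bd7f1_co.PD.Thin
section
/-! From a drawing to compact pieces.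
Plan: choose `ε > 0` such that the closed balls `B v = closedBall (f v) ε` are pairwise disjoint and
`B z` misses every arc that does not end at `z` (finitely many compact sets).  For the arc of
`u < v` (any linear order on `V`, e.g. through `Fintype.equivFin`) let `t1` be the last time in
`B u` and `t2` the first time after `t1` in `B v`; it is enough to take `A u v = γ u v '' Icc t1 t2`
with `0 < t1 ≤ t2 < 1`, `γ t1 ∈ B u`, `γ t2 ∈ B v` (any such times will do: take them by continuity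
at `0` and `1`), and `A v u = A u v`.  Finitely many disjoint compact pairs are uniformly apart. -/

set_option autoImplicit false

namespace Pool.Agent.Pl

open Set Metric Filter Topology

theorem Thin_sep {I X : Type} [Finite I] [MetricSpace X] (P : I → Prop) (K L : I → Set X)
    (h : ∀ i, P i → IsCompact (K i) ∧ IsCompact (L i) ∧ Disjoint (K i) (L i)) :
    ∃ δ : ℝ, 0 < δ ∧ ∀ i, P i → ∀ x ∈ K i, ∀ y ∈ L i, δ ≤ dist x y := by
  have : ∀ i, ∀ᶠ δ : ℝ in 𝓝[>] 0, P i → ∀ x ∈ K i, ∀ y ∈ L i, δ ≤ dist x y := fun i => by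
    by_cases hi : P i
    · obtain ⟨c1, c2, c3⟩ := h i hi
      obtain ⟨r, hr, k⟩ := Metric.exists_pos_forall_lt_edist c1 c2.isClosed c3
      filter_upwards [Ioo_mem_nhdsGT (show (0 : ℝ) < r from hr)] with δ hδ _ x hx y hy
      have := k x hx y hy
      rw [edist_nndist, ENNReal.coe_lt_coe] at this
      exact hδ.2.le.trans (NNReal.coe_lt_coe.2 this).le
    · exact Eventually.of_forall fun _ k => absurd k hi
  obtain ⟨δ, h1, h2⟩ := ((eventually_all.2 this).and self_mem_nhdsWithin).exists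
  exact ⟨δ, h2, h1⟩

theorem thin {V : Type} [Fintype V] (G : SimpleGraph V) (f : V → ℝ × ℝ)
    (γ : V → V → ℝ → ℝ × ℝ) (hf : Function.Injective f)
    (h1 : ∀ u v : V, G.Adj u v →
        ContinuousOn (γ u v) (Set.Icc (0:ℝ) 1) ∧ Set.InjOn (γ u v) (Set.Icc (0:ℝ) 1) ∧
        γ u v 0 = f u ∧ γ u v 1 = f v ∧
        ∀ z : V, ∀ t ∈ Set.Ioo (0:ℝ) 1, γ u v t ≠ f z)
    (h2 : ∀ u v w x : V, G.Adj u v → G.Adj w x → s(u, v) ≠ s(w, x) →
        ∀ t ∈ Set.Ioo (0:ℝ) 1, ∀ r ∈ Set.Icc (0:ℝ) 1, γ u v t ≠ γ w x r) :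
    ∃ (B : V → Set (ℝ × ℝ)) (A : Sym2 V → Set (ℝ × ℝ)) (δ : ℝ), 0 < δ ∧
      (∀ v, IsPreconnected (B v) ∧ Bornology.IsBounded (B v)) ∧
      (∀ e, IsPreconnected (A e) ∧ Bornology.IsBounded (A e)) ∧
      (∀ u v, G.Adj u v → (A s(u, v) ∩ B u).Nonempty) ∧
      (∀ u v, u ≠ v → ∀ x ∈ B u, ∀ y ∈ B v, δ ≤ dist x y) ∧
      (∀ u v z, G.Adj u v → z ≠ u → z ≠ v → ∀ x ∈ A s(u, v), ∀ y ∈ B z, δ ≤ dist x y) ∧
      (∀ e ∈ G.edgeSet, ∀ e' ∈ G.edgeSet, e ≠ e' → ∀ x ∈ A e, ∀ y ∈ A e', δ ≤ dist x y) := by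
  obtain ⟨a, b, hab⟩ : ∃ a b : Sym2 V → V, ∀ e, s(a e, b e) = e :=
    ⟨fun e => e.out.1, fun e => e.out.2, fun e => e.out_eq⟩
  have hadj : ∀ e ∈ G.edgeSet, G.Adj (a e) (b e) := fun e he => by rwa [← hab e] at he
  have ma : ∀ e, a e ∈ e := fun e => (hab e).subst (motive := (a e ∈ ·)) (Sym2.mem_mk_left _ _)
  have mb : ∀ e, b e ∈ e := fun e => (hab e).subst (motive := (b e ∈ ·)) (Sym2.mem_mk_right _ _)
  obtain ⟨δ0, p0, k0⟩ := Thin_sep (fun i : V × V => i.1 ≠ i.2) (fun i => {f i.1}) (fun i => {f i.2})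
    fun i hi => ⟨isCompact_singleton, isCompact_singleton, by simpa using hf.ne hi⟩
  obtain ⟨δ1, p1, k1⟩ := Thin_sep (fun i : Sym2 V × V => i.1 ∈ G.edgeSet ∧ i.2 ∉ i.1)
    (fun i => γ (a i.1) (b i.1) '' Icc 0 1) (fun i => {f i.2}) fun i hi => by
      obtain ⟨c1, -, c3, c4, c5⟩ := h1 _ _ (hadj _ hi.1)
      refine ⟨isCompact_Icc.image_of_continuousOn c1, isCompact_singleton, ?_⟩
      rw [disjoint_singleton_right]
      rintro ⟨t, ht, e⟩
      rcases ht.1.eq_or_lt with rfl | l0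
      · exact hi.2 (hf (c3.symm.trans e) ▸ ma i.1)
      rcases ht.2.eq_or_lt with rfl | l1
      · exact hi.2 (hf (c4.symm.trans e) ▸ mb i.1)
      exact c5 _ t ⟨l0, l1⟩ e
  obtain ⟨ε, pe, e0, e1⟩ : ∃ ε : ℝ, 0 < ε ∧ 3 * ε ≤ δ0 ∧ 2 * ε ≤ δ1 :=
    ⟨min δ0 δ1 / 3, by positivity, by linarith [min_le_left δ0 δ1],
      by linarith [min_le_right δ0 δ1, lt_min p0 p1]⟩
  have : ∀ e : Sym2 V, ∃ A : Set (ℝ × ℝ), IsCompact A ∧ IsPreconnected A ∧ (e ∈ G.edgeSet →
      A ⊆ γ (a e) (b e) '' Ioo 0 1 ∧ ∀ u ∈ e, (A ∩ closedBall (f u) ε).Nonempty) := fun e => by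
    by_cases he : e ∈ G.edgeSet
    swap
    · exact ⟨∅, isCompact_empty, isPreconnected_empty, fun k => absurd k he⟩
    obtain ⟨c1, -, c3, c4, -⟩ := h1 _ _ (hadj _ he)
    obtain ⟨r0, q0, s0⟩ := Metric.continuousWithinAt_iff.1 (c1 0 (by simp)) ε pe
    obtain ⟨r1, q1, s1⟩ := Metric.continuousWithinAt_iff.1 (c1 1 (by simp)) ε pe
    obtain ⟨τ, t0, t1, t2, t3⟩ : ∃ τ : ℝ, 0 < τ ∧ τ ≤ 1 / 2 ∧ τ < r0 ∧ τ < r1 :=
      ⟨min 1 (min r0 r1) / 2, by positivity, by linarith [min_le_left 1 (min r0 r1)],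
        by linarith [min_le_right 1 (min r0 r1), min_le_left r0 r1],
        by linarith [min_le_right 1 (min r0 r1), min_le_right r0 r1]⟩
    have hs : Icc τ (1 - τ) ⊆ Ioo 0 1 := Icc_subset_Ioo t0 (by linarith)
    have c2 := c1.mono (hs.trans Ioo_subset_Icc_self)
    refine ⟨γ (a e) (b e) '' Icc τ (1 - τ), isCompact_Icc.image_of_continuousOn c2,
      isPreconnected_Icc.image _ c2, fun _ => ⟨image_mono hs, fun u hu => ?_⟩⟩
    rw [← hab e, Sym2.mem_iff] at hu
    rcases hu with rfl | rfl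
    · refine ⟨_, ⟨τ, ⟨le_rfl, by linarith⟩, rfl⟩, ?_⟩
      rw [← c3]
      exact (s0 ⟨t0.le, by linarith⟩ (by rwa [Real.dist_eq, sub_zero, abs_of_pos t0])).le
    · refine ⟨_, ⟨1 - τ, ⟨by linarith, le_rfl⟩, rfl⟩, ?_⟩
      rw [← c4]
      exact (s1 ⟨by linarith, by linarith⟩
        (by rwa [Real.dist_eq, sub_sub_cancel_left, abs_neg, abs_of_pos t0])).le
  choose A a1 a2 a3 using this
  obtain ⟨δ2, p2, k2⟩ := Thin_sep
    (fun i : Sym2 V × Sym2 V => i.1 ∈ G.edgeSet ∧ i.2 ∈ G.edgeSet ∧ i.1 ≠ i.2)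
    (fun i => A i.1) (fun i => A i.2) fun i hi => ⟨a1 _, a1 _, disjoint_left.2 fun x x1 x2 => by
      obtain ⟨t, ht, e⟩ := (a3 _ hi.1).1 x1
      obtain ⟨r, hr, e'⟩ := (a3 _ hi.2.1).1 x2
      exact h2 _ _ _ _ (hadj _ hi.1) (hadj _ hi.2.1) (by rw [hab, hab]; exact hi.2.2) t ht r
        (Ioo_subset_Icc_self hr) (e.trans e'.symm)⟩
  refine ⟨fun v => closedBall (f v) ε, A, min ε δ2, lt_min pe p2,
    fun v => ⟨(convex_closedBall _ _).isPreconnected, isBounded_closedBall⟩,
    fun e => ⟨a2 e, (a1 e).isBounded⟩, fun u v h => (a3 _ h).2 u (Sym2.mem_mk_left _ _),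
    fun u v h x hx y hy => (min_le_left _ _).trans ?_,
    fun u v z h z1 z2 x hx y hy => (min_le_left _ _).trans ?_,
    fun e he e' he' h x hx y hy => (min_le_right _ _).trans (k2 (e, e') ⟨he, he', h⟩ x hx y hy)⟩
  · have := k0 (u, v) h _ rfl _ rfl
    have := dist_triangle4 (f u) x y (f v)
    rw [mem_closedBall'] at hx
    rw [mem_closedBall] at hy
    linarith
  · have := k1 (s(u, v), z) ⟨h, by simp [z1, z2]⟩ x
      (image_mono Ioo_subset_Icc_self ((a3 _ h).1 hx)) _ rfl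
    have := dist_triangle x y (f z)
    rw [mem_closedBall] at hy
    linarith

end Pool.Agent.Pl
end

-- merged part: Pool.Agent.Work.MP_5bd7f1_co.PD.Draw
section
/-! A drawing gives an abstract dual.
Plan: `thin`, mesh `h = δ / 4`, `C v = near h (B v)`, `D e = near h (A e)`.  For each edge
(oriented once) take a grid chain in `D e` from `C u` to `C v` and cut it down (`cut_chain`) to a
finite set `I e ⊆ D e \ (C u ∪ C v)` tied to `C u` and an edge into `C v`.  Branch set of `u` =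
`C u` with the `I e` of the edges oriented out of `u`.  `PD.minor` with `pd_grid`. -/

set_option autoImplicit false
open Relation

namespace Pool.Agent.Pl

/-- cut a chain from `C` to `C'` down to a part that leaves `C` and enters `C'` once -/
theorem cut_chain {α : Type} {R : α → α → Prop} {C C' : Set α} (hd : Disjoint C C') {a b : α}
    (h : ReflTransGen R a b) (ha : a ∈ C) (hb : b ∈ C') :
    ∃ a' ∈ C, ∃ p, ∃ b' ∈ C', R p b' ∧
      ReflTransGen (fun x y => R x y ∧ y ∉ C ∧ y ∉ C') a' p := by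
  have key : (∃ a' ∈ C, ReflTransGen (fun x y => R x y ∧ y ∉ C ∧ y ∉ C') a' b) ∨
      ∃ a' ∈ C, ∃ p, ∃ b' ∈ C', R p b' ∧
        ReflTransGen (fun x y => R x y ∧ y ∉ C ∧ y ∉ C') a' p := by
    clear hb
    induction h with
    | refl => exact Or.inl ⟨a, ha, .refl⟩
    | @tail b c _ h ih =>
      rcases ih with ⟨a', h1, h2⟩ | ih
      · by_cases hc : c ∈ C
        · exact Or.inl ⟨c, hc, .refl⟩
        · by_cases hc' : c ∈ C'
          · exact Or.inr ⟨a', h1, b, c, hc', h, h2⟩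
          · exact Or.inl ⟨a', h1, h2.tail ⟨h, hc, hc'⟩⟩
      · exact Or.inr ih
  refine key.resolve_left ?_
  rintro ⟨a', h1, h2⟩
  cases h2 with
  | refl => exact Set.disjoint_left.1 hd h1 hb
  | tail _ h => exact h.2.2 hb

theorem Draw_lift {α : Type} {R : α → α → Prop} {s : Finset α} {P : Set α}
    (hP : ∀ x ∈ P, x ∈ s) {a b : α} (h : ReflTransGen (fun x y => R x y ∧ x ∈ P ∧ y ∈ P) a b)
    (ha : a ∈ s) (hb : b ∈ s) :
    ReflTransGen (fun x y : s => R x y ∧ x.1 ∈ P ∧ y.1 ∈ P) ⟨a, ha⟩ ⟨b, hb⟩ := by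
  induction h with
  | refl => exact .refl
  | tail _ h ih => exact (ih (hP _ h.2.1)).tail h

theorem Draw_mono {α : Type} {R Q : α → α → Prop} {a b : α} (h : ReflTransGen R a b)
    (hi : ∀ x y, R x y → Q x y) : ReflTransGen Q a b := by
  induction h with
  | refl => exact .refl
  | tail _ h ih => exact ih.tail (hi _ _ h)

theorem Draw_symm {α : Type} {R : α → α → Prop} {a b : α} (h : ReflTransGen R a b)
    (hi : ∀ x y, R x y → R y x) : ReflTransGen R b a := by
  induction h with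
  | refl => exact .refl
  | tail _ h ih => exact ih.head (hi _ _ h)

/-- the points tied to `C` inside `T` -/
def Draw_br (C T : Set (ℤ × ℤ)) : Set (ℤ × ℤ) :=
  {y | ∃ a ∈ C, ReflTransGen (fun x y => grid.Adj x y ∧ y ∈ T) a y}

theorem Draw_sub {C T : Set (ℤ × ℤ)} (h : C ⊆ T) : Draw_br C T ⊆ T := by
  rintro y ⟨a, ha, hy⟩
  cases hy with
  | refl => exact h ha
  | tail _ h => exact h.2

theorem Draw_conn {C T : Set (ℤ × ℤ)}
    (hC : ∀ a ∈ C, ∀ b ∈ C, ReflTransGen (fun x y => grid.Adj x y ∧ x ∈ C ∧ y ∈ C) a b)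
    {x y : ℤ × ℤ} (hx : x ∈ Draw_br C T) (hy : y ∈ Draw_br C T) :
    ReflTransGen (fun x y => grid.Adj x y ∧ x ∈ Draw_br C T ∧ y ∈ Draw_br C T) x y := by
  have key : ∀ a ∈ C, ∀ y, ReflTransGen (fun x y => grid.Adj x y ∧ y ∈ T) a y →
      ReflTransGen (fun x y => grid.Adj x y ∧ x ∈ Draw_br C T ∧ y ∈ Draw_br C T) a y := by
    intro a ha y h
    induction h with
    | refl => exact .refl
    | tail h1 h2 ih => exact ih.tail ⟨h2.1, ⟨a, ha, h1⟩, a, ha, h1.tail h2⟩
  obtain ⟨a, ha, hx⟩ := hx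
  obtain ⟨b, hb, hy⟩ := hy
  exact .trans (Draw_symm (key a ha x hx) fun _ _ h => ⟨h.1.symm, h.2.2, h.2.1⟩)
    (.trans (Draw_mono (hC a ha b hb) fun _ _ h => ⟨h.1, ⟨_, h.2.1, .refl⟩, _, h.2.2, .refl⟩)
      (key b hb y hy))

/-- disjoint connected finite branch sets in the grid -/
theorem Draw_minor {V : Type} [Fintype V] (G : SimpleGraph V) (P : V → Set (ℤ × ℤ))
    (hf : ∀ v, (P v).Finite) (hd : ∀ u v x, x ∈ P u → x ∈ P v → u = v)
    (hc : ∀ v, ∀ a ∈ P v, ∀ b ∈ P v,
      ReflTransGen (fun x y => grid.Adj x y ∧ x ∈ P v ∧ y ∈ P v) a b)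
    (he : ∀ u v, G.Adj u v → ∃ a ∈ P u, ∃ b ∈ P v, grid.Adj a b) : PD G := by
  classical
  have hs : ∀ v, ∀ x ∈ P v, x ∈ (Set.finite_iUnion hf).toFinset := fun v x hx => by
    simpa using ⟨v, hx⟩
  obtain ⟨π, hπ⟩ : ∃ π : ℤ × ℤ → Option V, ∀ x v, π x = some v ↔ x ∈ P v := by
    refine ⟨fun x => if h : ∃ v, x ∈ P v then some h.choose else none, fun x v => ?_⟩
    by_cases h : ∃ v, x ∈ P v
    · simp only [dif_pos h, Option.some.injEq]
      exact ⟨fun e => e ▸ h.choose_spec, hd _ _ x h.choose_spec⟩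
    · simp only [dif_neg h, reduceCtorEq, false_iff]
      exact fun hx => h ⟨v, hx⟩
  refine PD.minor (fun w => π w.1) (fun v a b ha hb => ?_) (fun u v h => ?_)
    (pd_grid (Set.finite_iUnion hf).toFinset)
  · simp only [hπ] at ha hb ⊢
    exact Draw_lift (hs v) (hc v _ ha _ hb) a.2 b.2
  · obtain ⟨a, ha, b, hb, hab⟩ := he u v h
    exact ⟨⟨a, hs u a ha⟩, ⟨b, hs v b hb⟩, hab, (hπ _ _).2 ha, (hπ _ _).2 hb⟩

theorem pd_of_drawing {V : Type} [Fintype V] (G : SimpleGraph V)
    (h : ∃ (f : V → ℝ × ℝ) (γ : V → V → ℝ → ℝ × ℝ),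
      Function.Injective f ∧
      (∀ u v : V, G.Adj u v →
        ContinuousOn (γ u v) (Set.Icc (0:ℝ) 1) ∧ Set.InjOn (γ u v) (Set.Icc (0:ℝ) 1) ∧
        γ u v 0 = f u ∧ γ u v 1 = f v ∧
        ∀ z : V, ∀ t ∈ Set.Ioo (0:ℝ) 1, γ u v t ≠ f z) ∧
      (∀ u v w x : V, G.Adj u v → G.Adj w x → s(u, v) ≠ s(w, x) →
        ∀ t ∈ Set.Ioo (0:ℝ) 1, ∀ r ∈ Set.Icc (0:ℝ) 1, γ u v t ≠ γ w x r)) : PD G := by
  obtain ⟨f, γ, hf, h1, h2⟩ := h
  obtain ⟨B, A, δ, hδ, hB, hA, hAB, dB, dAB, dA⟩ := thin G f γ hf h1 h2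
  have hh : 0 < δ / 4 := by positivity
  have e4 : 4 * (δ / 4) = δ := by ring
  let o := Fintype.equivFin V
  let C : V → Set (ℤ × ℤ) := fun v => near (δ / 4) (B v)
  let D : Sym2 V → Set (ℤ × ℤ) := fun e => near (δ / 4) (A e)
  let T : V → Set (ℤ × ℤ) := fun u =>
    C u ∪ {y | ∃ v, G.Adj u v ∧ o u < o v ∧ y ∈ D s(u, v) ∧ y ∉ C v}
  have cc : ∀ u v, u ≠ v → Disjoint (C u) (C v) := fun u v h => near_disj (e4.symm ▸ dB u v h)
  have dc : ∀ u v z, G.Adj u v → z ≠ u → z ≠ v → Disjoint (D s(u, v)) (C z) :=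
    fun u v z a b c => near_disj (e4.symm ▸ dAB u v z a b c)
  have dd : ∀ u v w z, G.Adj u v → G.Adj w z → s(u, v) ≠ s(w, z) →
      Disjoint (D s(u, v)) (D s(w, z)) := fun u v w z a b c => near_disj (e4.symm ▸ dA _ a _ b c)
  have ct : ∀ u z x, x ∈ C z → (∃ v, G.Adj u v ∧ o u < o v ∧ x ∈ D s(u, v) ∧ x ∉ C v) →
      z = u := by
    rintro u z x hx ⟨v, a, -, c, d⟩
    by_contra hz
    exact Set.disjoint_left.1 (dc u v z a hz fun e => d (e ▸ hx)) c hx
  have hT : ∀ u v x, x ∈ T u → x ∈ T v → u = v := by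
    rintro u v x (hu | hu) (hv | hv)
    · by_contra h
      exact Set.disjoint_left.1 (cc u v h) hu hv
    · exact ct v u x hu hv
    · exact (ct u v x hv hu).symm
    · obtain ⟨u', a, b, c, -⟩ := hu
      obtain ⟨v', a', b', c', -⟩ := hv
      by_contra h
      refine Set.disjoint_left.1 (dd _ _ _ _ a a' fun e => ?_) c c'
      rcases Sym2.eq_iff.1 e with ⟨e1, -⟩ | ⟨rfl, rfl⟩
      exacts [h e1, lt_asymm b b']
  have hs : ∀ u, Draw_br (C u) (T u) ⊆ T u := fun u => Draw_sub Set.subset_union_left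
  have he : ∀ u v, G.Adj u v → o u < o v →
      ∃ a ∈ Draw_br (C u) (T u), ∃ b ∈ Draw_br (C v) (T v), grid.Adj a b := by
    intro u v huv hlt
    obtain ⟨x, x1, x2⟩ := hAB u v huv
    obtain ⟨y, y1, y2⟩ := hAB v u huv.symm
    rw [Sym2.eq_swap] at y1
    obtain ⟨a, ha⟩ := near_nonempty hh x
    obtain ⟨b, hb⟩ := near_nonempty hh y
    have m := fun {z K} (h : z ∈ K) => near_mono (δ / 4) (Set.singleton_subset_iff.2 h)
    obtain ⟨a', ha', p, b', hb', r, hr⟩ := cut_chain (cc u v huv.ne)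
      (near_conn hh (hA _).1 (m x1 ha) (m y1 hb)) (m x2 ha) (m y2 hb)
    exact ⟨p, ⟨a', ha', Draw_mono hr fun _ _ h => ⟨h.1.1, Or.inr ⟨v, huv, hlt, h.1.2.2, h.2.2⟩⟩⟩,
      b', ⟨b', hb', .refl⟩, r.1⟩
  refine Draw_minor G (fun u => Draw_br (C u) (T u)) (fun u => Set.Finite.subset ?_ (hs u))
    (fun u v x a b => hT u v x (hs u a) (hs v b))
    (fun v a ha b hb => Draw_conn (fun _ ha _ hb => near_conn hh (hB v).1 ha hb) ha hb)
    fun u v h => ?_
  · refine (near_finite hh (hB u).2).union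
      ((Set.finite_iUnion fun v => near_finite hh (hA s(u, v)).2).subset ?_)
    rintro y ⟨v, -, -, c, -⟩
    exact Set.mem_iUnion.2 ⟨v, c⟩
  · rcases lt_or_gt_of_ne (o.injective.ne h.ne) with l | l
    · exact he u v h l
    · obtain ⟨a, ha, b, hb, hab⟩ := he v u h.symm l
      exact ⟨b, hb, a, ha, hab.symm⟩

end Pool.Agent.Pl
end
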