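import Pool.Agent.Work.MP_5bd7f1_co.PD.Disc

/-! Cutting a disc along an arbitrary path between two outer vertices. -/

set_option autoImplicit false
open Relation

namespace Pool.Agent.Pl

variable {V : Type} [Fintype V]

open Classical in
/-- the dual of the graph with a new vertex inside the face `f` -/
theorem Dual.apexDual {G : SimpleGraph V} (D : Dual G) (f : D.Fc) (hf : IsCyc (D.star f))
    (hne : ∀ u v, (D.star f).Adj u v → D.l s(u, v) ≠ D.r s(u, v)) :
    ∃ (L R : Sym2 (Option V) → D.Fc ⊕ Sym2 V) (nx ny : V → V),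
      (∀ v ∈ (D.star f).support, nx v ≠ ny v ∧ ∀ w, (D.star f).Adj v w ↔ w = nx v ∨ w = ny v) ∧
      (∀ v, L s(some v, none) = Sum.inr s(v, nx v)) ∧ (∀ v, R s(some v, none) = Sum.inr s(v, ny v)) ∧
      (∀ u v, L s(some u, some v) =
        if D.l s(u, v) = f then Sum.inr s(u, v) else Sum.inl (D.l s(u, v))) ∧
      (∀ u v, R s(some u, some v) =
        if D.r s(u, v) = f then Sum.inr s(u, v) else Sum.inl (D.r s(u, v))) ∧
      ∀ S : Sym2 (Option V) → ZMod 2, (∀ v, bd (apex G (D.star f).support) S v = 0) ↔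
        ∃ c : D.Fc ⊕ Sym2 V → ZMod 2, ∀ u v, (apex G (D.star f).support).Adj u v →
          S s(u, v) = c (L s(u, v)) + c (R s(u, v)) := by
  have hnb : ∀ v, ∃ x y, v ∈ (D.star f).support →
      x ≠ y ∧ ∀ w, (D.star f).Adj v w ↔ w = x ∨ w = y := by
    intro v
    by_cases hv : v ∈ (D.star f).support
    · obtain ⟨x, y, h⟩ := hf.2.1 v hv
      exact ⟨x, y, fun _ => h⟩
    · exact ⟨v, v, fun h => absurd h hv⟩
  choose nx ny hn using hnb
  obtain ⟨v0, -⟩ : ∃ v0 : V, True := by
    by_contra hc
    exact hf.1 (by ext a; exact (hc ⟨a, trivial⟩).elim)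
  let sd : D.Fc → Sym2 V → D.Fc ⊕ Sym2 V := fun g e => if g = f then Sum.inr e else Sum.inl g
  let L : Sym2 (Option V) → D.Fc ⊕ Sym2 V := fun e =>
    if h : ∃ v, e = s(some v, none) then Sum.inr s(h.choose, nx h.choose)
    else sd (D.l (unsome v0 e)) (unsome v0 e)
  let R : Sym2 (Option V) → D.Fc ⊕ Sym2 V := fun e =>
    if h : ∃ v, e = s(some v, none) then Sum.inr s(h.choose, ny h.choose)
    else sd (D.r (unsome v0 e)) (unsome v0 e)
  have hch : ∀ v (h : ∃ w, s(some v, none) = s(some w, (none : Option V))), h.choose = v := by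
    intro v h
    have := h.choose_spec
    simpa using this.symm
  have hL1 : ∀ v, L s(some v, none) = Sum.inr s(v, nx v) := fun v => by
    have h : ∃ w, s(some v, none) = s(some w, (none : Option V)) := ⟨v, rfl⟩
    simp only [L, dif_pos h, hch v h]
  have hR1 : ∀ v, R s(some v, none) = Sum.inr s(v, ny v) := fun v => by
    have h : ∃ w, s(some v, none) = s(some w, (none : Option V)) := ⟨v, rfl⟩
    simp only [R, dif_pos h, hch v h]
  have hL2 : ∀ u v, L s(some u, some v) = sd (D.l s(u, v)) s(u, v) := fun u v => by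
    simp only [L]
    rw [dif_neg (by simp)]
    simp [unsome]
  have hR2 : ∀ u v, R s(some u, some v) = sd (D.r s(u, v)) s(u, v) := fun u v => by
    simp only [R]
    rw [dif_neg (by simp)]
    simp [unsome]
  have hsup : ∀ v, (v ∈ (D.star f).support ∧ v ∈ G.support) ↔ v ∈ (D.star f).support :=
    fun v => ⟨fun h => h.1, fun h => ⟨h, SimpleGraph.support_mono (D.star_le f) h⟩⟩
  have hbd : ∀ (J : Sym2 V → ZMod 2) v, bd (D.star f) J v =
      if v ∈ (D.star f).support then J s(v, nx v) + J s(v, ny v) else 0 := by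
    intro J v
    split_ifs with hv
    · obtain ⟨h1, h2⟩ := hn v hv
      refine bd_two ((h2 _).2 (Or.inl rfl)) ((h2 _).2 (Or.inr rfl)) h1 fun w hw a b => ?_
      rcases (h2 w).1 hw with e | e
      · exact absurd e a
      · exact absurd e b
    · exact bd_none fun w hw => absurd ⟨w, hw⟩ hv
  have hsd : ∀ (c : D.Fc ⊕ Sym2 V → ZMod 2) u v, G.Adj u v →
      c (sd (D.l s(u, v)) s(u, v)) + c (sd (D.r s(u, v)) s(u, v)) =
      ((if D.l s(u, v) = f then 0 else c (Sum.inl (D.l s(u, v)))) +
        (if D.r s(u, v) = f then 0 else c (Sum.inl (D.r s(u, v))))) +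
        ind (D.star f) s(u, v) * c (Sum.inr s(u, v)) := by
    intro c u v huv
    rw [D.ind_star f huv (hne u v)]
    simp only [sd]
    split_ifs <;> ring
  refine ⟨L, R, nx, ny, hn, hL1, hR1, hL2, hR2, fun S => ⟨fun hS => ?_, ?_⟩⟩
  · obtain ⟨J, hJ1, hJ2⟩ := exists_tjoin (G := D.star f) (R := (D.star f).Adj) (fun _ _ h => h)
      (fun v => if v ∈ (D.star f).support then S s(some v, none) else 0)
      (fun a b ha hb => (SimpleGraph.reachable_iff_reflTransGen _ _).1
        (hf.2.2 a (by by_contra h; simp [h] at ha) b (by by_contra h; simp [h] at hb)))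
      (by
        have := hS none
        rw [bd_apex_none] at this
        simpa only [hsup] using this)
    have hJ0 : ∀ u v, ¬ (D.star f).Adj u v → J s(u, v) = 0 := by
      intro u v huv
      by_contra h
      obtain ⟨a, b, hab, e⟩ := hJ1 _ h
      rcases Sym2.eq_iff.1 e with ⟨rfl, rfl⟩ | ⟨rfl, rfl⟩
      · exact huv hab
      · exact huv hab.symm
    obtain ⟨c, hc⟩ := (D.cob ((fun e => S (e.map some)) + J)).1 fun v => by
      have := hS (some v)
      rw [bd_apex_some] at this
      rw [bd_add, bd_sub (S := J) (D.star_le f) fun w _ hw => hJ0 v w hw, hJ2]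
      simpa only [hsup] using this
    have hap : ∀ v, v ∈ (D.star f).support → S s(some v, none) = J s(v, nx v) + J s(v, ny v) := by
      intro v hv
      have := hJ2 v
      rw [hbd, if_pos hv, if_pos hv] at this
      exact this.symm
    refine ⟨Sum.elim (fun g => c g + c f) J, fun a b hab => ?_⟩
    cases a <;> cases b
    · exact hab.elim
    · rw [Sym2.eq_swap, hL1, hR1]
      exact hap _ hab.1
    · rw [hL1, hR1]
      exact hap _ hab.1
    · rename_i u v
      have h1 := hc u v hab
      have h2 : ind (D.star f) s(u, v) * J s(u, v) = J s(u, v) := by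
        by_cases h : (D.star f).Adj u v
        · rw [ind_of_adj h, one_mul]
        · rw [hJ0 u v h, mul_zero]
      have h3 : ∀ g, (if g = f then 0 else c g + c f) = c g + c f := by
        intro g
        split_ifs with e
        · rw [e, z2_add_self]
        · rfl
      rw [hL2, hR2, hsd _ u v hab]
      simp only [Sum.elim_inl, Sum.elim_inr, h2, h3]
      simp only [Pi.add_apply, Sym2.map_mk] at h1
      rw [add_add_add_comm, z2_add_self, add_zero, ← h1, add_assoc, z2_add_self, add_zero]
  · rintro ⟨c, hc⟩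
    have hs : ∀ v, bd (apex G (D.star f).support) S (some v) = 0 := by
      intro v
      rw [bd_apex_some]
      have h1 : bd G (fun e => S (e.map some)) v =
          bd G ((fun e => (fun g => if g = f then 0 else c (Sum.inl g)) (D.l e) +
            (fun g => if g = f then 0 else c (Sum.inl g)) (D.r e)) +
            fun e => ind (D.star f) e * c (Sum.inr e)) v := by
        refine bd_congr fun w hw => ?_
        have := hc (some v) (some w) hw
        rw [hL2, hR2, hsd _ v w hw] at this
        exact this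
      rw [h1, bd_add, D.even (fun g => if g = f then 0 else c (Sum.inl g)), zero_add,
        bd_sub (D.star_le f) fun w _ hw => by simp [ind_of_not hw],
        bd_congr (T := fun e => c (Sum.inr e)) fun w hw => by simp [ind_of_adj hw], hbd]
      simp only [hsup]
      split_ifs with hv
      · rw [hc (some v) none ((hsup v).2 hv), hL1, hR1, z2_add_self]
      · rfl
    intro a
    cases a with
    | some v => exact hs v
    | none =>
      have := sum_bd_univ (apex G (D.star f).support) S
      rw [Fintype.sum_option, Finset.sum_eq_zero fun v _ => hs v, add_zero] at this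
      exact this


/-- the edges with a face of value 1 on one side -/
def Dual.half {G : SimpleGraph V} (D : Dual G) (c : D.Fc → ZMod 2) : SimpleGraph V where
  Adj u v := G.Adj u v ∧ (c (D.l s(u, v)) = 1 ∨ c (D.r s(u, v)) = 1)
  symm := ⟨fun u v h => ⟨h.1.symm, by rw [Sym2.eq_swap (a := v)]; exact h.2⟩⟩
  loopless := ⟨fun _ h => G.loopless.irrefl _ h.1⟩

theorem Dual.half_spec {G : SimpleGraph V} (D : Dual G) (h : TwoConn G) {K : SimpleGraph V}
    (hK : IsCyc K) (hG : K ≤ G) (c : D.Fc → ZMod 2)
    (hc : ∀ u v, G.Adj u v → ind K s(u, v) = c (D.l s(u, v)) + c (D.r s(u, v))) :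
    PO (D.half c) K.support ∧
      ∀ v w x, v ∉ K.support → (D.half c).Adj v w → G.Adj v x → (D.half c).Adj v x := by
  obtain ⟨u, v, huv⟩ : ∃ u v, K.Adj u v := by
    by_contra hn
    push Not at hn
    exact hK.1 (by ext a b; simpa using hn a b)
  obtain ⟨f, hf0, hf⟩ : ∃ f, c f = 0 ∧ (D.star f).Adj u v := by
    have h1 := hc u v (hG huv)
    rw [ind_of_adj huv] at h1
    rcases z2_cases (c (D.l s(u, v))) with e | e
    · exact ⟨_, e, hG huv, Or.inl rfl⟩
    · refine ⟨_, ?_, hG huv, Or.inr rfl⟩
      rw [e] at h1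
      generalize c (D.r s(u, v)) = b at h1 ⊢
      revert b
      decide
  obtain ⟨m, F, h3, h4⟩ := (D.star_isCyc h f fun e => by rw [e] at hf; exact hf).exists_cyc
  let E : Disc G m F := D.disc h f (h3.mono (D.star_le f)) h4
  obtain ⟨i0, i1⟩ := E.ins_spec hK hG
  have hz := fun a b hab => E.zero (fun g => E.ins K g + c g)
    (by show E.ins K E.f0 + c f = 0; rw [i0, hf0, add_zero])
    (fun a b hab => by
      apply z2_eq_of_add
      have p := i1 a b hab
      have q : ind K s(a, b) = c (E.l s(a, b)) + c (E.r s(a, b)) := hc a b hab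
      rw [add_add_add_comm, ← p, ← q, z2_add_self]) (u := a) (v := b) hab
  have he : E.In K = D.half c := by
    ext a b
    refine and_congr_right fun hab => ?_
    obtain ⟨p, q⟩ := hz a b hab
    have p' : E.ins K (E.l s(a, b)) = c (D.l s(a, b)) := z2_eq_of_add p
    have q' : E.ins K (E.r s(a, b)) = c (D.r s(a, b)) := z2_eq_of_add q
    rw [p', q']
  rw [← he]
  exact ⟨E.po_In hK hG, fun v w x hv hw hx => E.side hK hG hv hw hx⟩

omit [Fintype V] in
theorem TwoConn.apex {G : SimpleGraph V} (h : TwoConn G) {O : Set V} {a b : V} (hab : a ≠ b)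
    (ha : a ∈ O ∧ a ∈ G.support) (hb : b ∈ O ∧ b ∈ G.support) : TwoConn (apex G O) := by
  have hs : ∀ v, some v ∈ (Pl.apex G O).support → v ∈ G.support := by
    rintro v ⟨w, hw⟩
    cases w with
    | none => exact hw.2
    | some w => exact ⟨w, hw⟩
  refine ⟨⟨none, ⟨some a, ha⟩, some a, ⟨none, ha⟩, some b, ⟨none, hb⟩, by simp, by simp,
    by simpa using hab⟩, fun x => ?_⟩
  have lift : ∀ u v : V, ReflTransGen (fun p q => G.Adj p q ∧ some p ≠ x ∧ some q ≠ x) u v →
      ReflTransGen (fun p q => (Pl.apex G O).Adj p q ∧ p ≠ x ∧ q ≠ x) (some u) (some v) := by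
    intro u v r
    induction r with
    | refl => exact ReflTransGen.refl
    | tail _ h2 ih => exact ih.tail h2
  have hh : ∀ u v : V, u ∈ G.support → v ∈ G.support → some u ≠ x → some v ≠ x →
      ReflTransGen (fun p q => (Pl.apex G O).Adj p q ∧ p ≠ x ∧ q ≠ x) (some u) (some v) := by
    intro u v hu hv p q
    apply lift
    cases x with
    | none =>
      exact rtg_mono (fun _ _ r => ⟨r, by simp, by simp⟩)
        (h.reach hu hv)
    | some y =>
      exact rtg_mono (fun _ _ r => ⟨r.1, by simpa using r.2.1, by simpa using r.2.2⟩)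
        (h.2 y u v hu hv (by simpa using p) (by simpa using q))
  obtain ⟨o, ho, hox⟩ : ∃ o, (o ∈ O ∧ o ∈ G.support) ∧ some o ≠ x := by
    by_cases e : some a = x
    · exact ⟨b, hb, fun e' => hab (Option.some.inj (e.trans e'.symm))⟩
    · exact ⟨a, ha, e⟩
  have h2 : ∀ p, p ∈ (Pl.apex G O).support → p ≠ x →
      ReflTransGen (fun p q => (Pl.apex G O).Adj p q ∧ p ≠ x ∧ q ≠ x) (some o) p := by
    intro p hp hpx
    cases p with
    | none => exact ReflTransGen.single ⟨ho, hox, hpx⟩
    | some v => exact hh o v ho.2 (hs v hp) hox hpx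
  intro p q hp hq hpx hqx
  exact (rtg_symm (fun x y h => ⟨h.1.symm, h.2.2, h.2.1⟩) (h2 p hp hpx)).trans (h2 q hq hqx)

omit [Fintype V] in
theorem IsPth.apex_isCyc {Q : SimpleGraph V} {a b : V} (h : IsPth Q a b) :
    IsCyc (apex Q {a, b}) := by
  obtain ⟨hab, ⟨x, hx⟩, ⟨y, hy⟩, h4, h5⟩ := h
  have ha : a ∈ Q.support := ⟨x, (hx x).2 rfl⟩
  have hb : b ∈ Q.support := ⟨y, (hy y).2 rfl⟩
  have h0 : (apex Q {a, b}).Adj none (some a) := ⟨Or.inl rfl, ha⟩
  refine ⟨fun e => by rw [e] at h0; exact h0, ?_, ?_⟩
  · intro v hv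
    cases v with
    | none =>
      refine ⟨some a, some b, by simpa using hab, fun w => ?_⟩
      cases w with
      | none => simp
      | some w =>
        constructor
        · rintro ⟨h1 | h1, -⟩
          · exact Or.inl (congrArg some h1)
          · exact Or.inr (congrArg some h1)
        · rintro (h1 | h1)
          · rw [h1]; exact h0
          · rw [h1]; exact ⟨Or.inr rfl, hb⟩
    | some v =>
      have hv' : v ∈ Q.support := by
        obtain ⟨w, hw⟩ := hv
        cases w with
        | none => exact hw.2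
        | some w => exact ⟨w, hw⟩
      by_cases e1 : v = a
      · subst e1
        refine ⟨none, some x, by simp, fun w => ?_⟩
        cases w with
        | none => simpa using h0.symm
        | some w => exact (hx w).trans (by simp)
      by_cases e2 : v = b
      · subst e2
        refine ⟨none, some y, by simp, fun w => ?_⟩
        cases w with
        | none => simpa using (show (apex Q {a, v}).Adj (some v) none from ⟨Or.inr rfl, hb⟩)
        | some w => exact (hy w).trans (by simp)
      obtain ⟨p, q, hpq, hw⟩ := h4 v hv' e1 e2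
      refine ⟨some p, some q, by simpa using hpq, fun w => ?_⟩
      cases w with
      | none =>
        simp only [reduceCtorEq, or_self, iff_false]
        rintro ⟨h1 | h1, -⟩
        · exact e1 h1
        · exact e2 h1
      | some w => exact (hw w).trans (by simp)
  · have h6 : ∀ p ∈ (apex Q {a, b}).support, (apex Q {a, b}).Reachable none p := by
      intro p hp
      cases p with
      | none => exact SimpleGraph.Reachable.refl _
      | some v =>
        have hv' : v ∈ Q.support := by
          obtain ⟨w, hw⟩ := hp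
          cases w with
          | none => exact hw.2
          | some w => exact ⟨w, hw⟩
        refine h0.reachable.trans ?_
        have r := (SimpleGraph.reachable_iff_reflTransGen _ _).1 (h5 v hv')
        clear hv' hp
        induction r with
        | refl => exact SimpleGraph.Reachable.refl _
        | tail _ h2 ih =>
          exact ih.trans (SimpleGraph.Adj.reachable (G := apex Q {a, b}) (u := some _) (v := some _) h2)
    exact fun p hp q hq => (h6 p hp).symm.trans (h6 q hq)

/-- Cutting along ANY path `Q` from `F a` to `F b` (it may run along or touch the outer cycle). -/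
theorem Disc.cut {G : SimpleGraph V} {m : ℕ} {F : ℤ → V} (D : Disc G m F) {a b : ℤ} (hab : a < b)
    (hb : b < a + m) {Q : SimpleGraph V} (hQ : IsPth Q (F a) (F b)) (hQG : Q ≤ G) :
    ∃ G1 G2 : SimpleGraph V, G1 ⊔ G2 = G ∧ G1 ⊓ G2 = Q ∧
      arcG F a b ≤ G1 ∧ arcG F b (a + m) ≤ G2 ∧
      (∀ x, x ∈ G1.support → x ∈ G2.support → x ∈ Q.support) ∧
      PO G1 (Q.support ∪ (arcG F a b).support) ∧
      PO G2 (Q.support ∪ (arcG F b (a + m)).support) := by
  classical
  have hst := D.star_f0
  have hO : (D.toDual.star D.f0).support = Set.range F := by rw [hst, cycG_support D.cyc]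
  obtain ⟨L, R, nx, ny, hn, hL1, hR1, hL2, hR2, hcob⟩ := D.toDual.apexDual D.f0
    (hst ▸ D.cyc.isCyc) fun u v h => D.toDual.sides_ne D.two h.1
  rw [hO, hst] at hn
  rw [hO] at hcob
  let H := apex G (Set.range F)
  let DH : Dual H := ⟨_, L, R, hcob⟩
  have hFs : ∀ i, F i ∈ G.support := fun i => ⟨_, D.cyc.2.1 i⟩
  have hH : TwoConn H := D.two.apex hQ.1 ⟨⟨a, rfl⟩, hFs a⟩ ⟨⟨b, rfl⟩, hFs b⟩
  let K := apex Q {F a, F b}
  have hK : IsCyc K := hQ.apex_isCyc
  have hKH : K ≤ H := by
    have : ∀ v, K.Adj none (some v) → H.Adj none (some v) := by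
      rintro v ⟨h1 | h1, -⟩
      · exact ⟨⟨a, h1.symm⟩, h1 ▸ hFs a⟩
      · exact ⟨⟨b, h1.symm⟩, h1 ▸ hFs b⟩
    intro p q h
    cases p <;> cases q
    · exact h.elim
    · exact this _ h
    · exact (this _ h.symm).symm
    · exact hQG h
  have hA := arcG_isPth D.cyc hab hb
  obtain ⟨hsup, hinf⟩ := arcG_sup D.cyc hab hb
  have hAG : arcG F a b ≤ G := (arcG_le D.cyc a b).trans (cycG_le D.cyc)
  obtain ⟨c0, hc0⟩ := (D.cob (ind (arcG F a b) + ind Q)).1 fun v => by
    rw [bd_add, bd_sub hAG fun w _ hw => ind_of_not hw, bd_sub hQG fun w _ hw => ind_of_not hw,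
      hA.bd_ind, hQ.bd_ind, z2_add_self]
  let c : D.Fc → ZMod 2 := fun g => c0 g + c0 D.f0
  have hcf : c D.f0 = 0 := z2_add_self _
  have hc : ∀ u v, G.Adj u v → ind (arcG F a b) s(u, v) + ind Q s(u, v) =
      c (D.l s(u, v)) + c (D.r s(u, v)) := by
    intro u v huv
    have := hc0 u v huv
    simp only [Pi.add_apply] at this
    simp only [c]
    rw [this, add_add_add_comm, z2_add_self, add_zero]
  let cH : D.Fc ⊕ Sym2 V → ZMod 2 := Sum.elim c (ind (arcG F a b))
  have hKQ : ∀ u v, ind K s(some u, some v) = ind Q s(u, v) := by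
    intro u v
    by_cases h : Q.Adj u v
    · rw [ind_of_adj h, ind_of_adj (K := K) (u := some u) (v := some v) h]
    · rw [ind_of_not h, ind_of_not (K := K) (u := some u) (v := some v) h]
  -- values on the two sides of an outer edge
  have hout : ∀ u v, (cycG F).Adj u v →
      cH (L s(some u, some v)) = ind (arcG F a b) s(u, v) ∨
        cH (R s(some u, some v)) = ind (arcG F a b) s(u, v) := by
    intro u v huv
    rcases (D.out u v (cycG_le D.cyc huv)).1 huv with e | e
    · left; rw [hL2, if_pos e]; rfl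
    · right; rw [hR2, if_pos e]; rfl
  have hspoke : ∀ i, cH (L s(some (F i), none)) + cH (R s(some (F i), none)) =
      bd (arcG F a b) (ind (arcG F a b)) (F i) := by
    intro i
    obtain ⟨h1, h2⟩ := hn (F i) ⟨i, rfl⟩
    rw [hL1, hR1, ← bd_sub (arcG_le D.cyc a b) fun w _ hw => ind_of_not hw,
      bd_two ((h2 _).2 (Or.inl rfl)) ((h2 _).2 (Or.inr rfl)) h1 fun w hw p q =>
        ((h2 w).1 hw).elim (fun e => absurd e p) fun e => absurd e q]
    rfl
  have hcH : ∀ p q, H.Adj p q → ind K s(p, q) = cH (DH.l s(p, q)) + cH (DH.r s(p, q)) := by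
    have hs : ∀ v, H.Adj (some v) none →
        ind K s(some v, none) = cH (L s(some v, none)) + cH (R s(some v, none)) := by
      rintro v ⟨⟨i, rfl⟩, -⟩
      rw [hspoke, hA.bd_ind]
      obtain ⟨x, hx⟩ := hQ.2.1
      obtain ⟨y, hy⟩ := hQ.2.2.1
      by_cases e1 : F i = F a
      · rw [if_pos e1, if_neg fun e => hQ.1 (e1.symm.trans e), add_zero]
        exact ind_of_adj (K := K) ⟨Or.inl e1, e1 ▸ ⟨x, (hx x).2 rfl⟩⟩
      by_cases e2 : F i = F b
      · rw [if_neg e1, if_pos e2, zero_add]
        exact ind_of_adj (K := K) ⟨Or.inr e2, e2 ▸ ⟨y, (hy y).2 rfl⟩⟩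
      · rw [if_neg e1, if_neg e2, add_zero]
        exact ind_of_not (K := K) fun h => h.1.elim e1 e2
    intro p q h
    cases p <;> cases q
    · exact h.elim
    · rw [Sym2.eq_swap]
      exact hs _ h.symm
    · exact hs _ h
    · rename_i u v
      have huv : G.Adj u v := h
      have h1 := hc u v huv
      show ind K s(some u, some v) = cH (L s(some u, some v)) + cH (R s(some u, some v))
      rw [hKQ, hL2, hR2]
      by_cases e1 : D.l s(u, v) = D.f0
      · have e2 : D.r s(u, v) ≠ D.f0 := fun e => D.toDual.sides_ne D.two huv (e1.trans e.symm)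
        rw [if_pos e1, if_neg e2]
        rw [e1, hcf, zero_add] at h1
        show _ = ind (arcG F a b) s(u, v) + c (D.r s(u, v))
        rw [← h1, ← add_assoc, z2_add_self, zero_add]
      by_cases e2 : D.r s(u, v) = D.f0
      · rw [if_neg e1, if_pos e2]
        rw [e2, hcf, add_zero] at h1
        show _ = c (D.l s(u, v)) + ind (arcG F a b) s(u, v)
        rw [← h1, add_right_comm, z2_add_self, zero_add]
      · rw [if_neg e1, if_neg e2]
        rw [ind_of_not fun h => ((D.out u v huv).1 (arcG_le D.cyc a b h)).elim e1 e2,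
          zero_add] at h1
        exact h1
  have hcH' : ∀ p q, H.Adj p q →
      ind K s(p, q) = (fun g => cH g + 1) (DH.l s(p, q)) + (fun g => cH g + 1) (DH.r s(p, q)) := by
    intro p q h
    rw [hcH p q h]
    show _ = (_ + 1) + (_ + 1)
    rw [add_add_add_comm, z2_add_self 1, add_zero]
  -- from a half of `H` to a half of `G`
  have key : ∀ (d : D.Fc ⊕ Sym2 V → ZMod 2) (A : SimpleGraph V), A ≤ cycG F →
      (∀ p q, H.Adj p q → ind K s(p, q) = d (DH.l s(p, q)) + d (DH.r s(p, q))) →
      (∀ u v, A.Adj u v → d (Sum.inr s(u, v)) = 1) →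
      PO ((DH.half d).comap some) (Q.support ∪ A.support) ∧
      ∀ v w x, v ∉ Q.support → ((DH.half d).comap some).Adj v w → G.Adj v x →
        ((DH.half d).comap some).Adj v x := by
    intro d A hAF hd hdA
    obtain ⟨p1, p2⟩ := DH.half_spec hH hK hKH d hd
    have hKs : ∀ v, some v ∈ K.support ↔ v ∈ Q.support := by
      intro v
      constructor
      · rintro ⟨w, hw⟩
        cases w with
        | none => exact hw.2
        | some w => exact ⟨w, hw⟩
      · rintro ⟨w, hw⟩
        exact ⟨some w, hw⟩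
    refine ⟨?_, fun v w x hv hw hx => p2 (some v) (some w) (some x) (fun h => hv ((hKs v).1 h)) hw hx⟩
    have hKd : K ≤ DH.half d := by
      intro p q h
      have := hd p q (hKH h)
      rw [ind_of_adj h] at this
      refine ⟨hKH h, ?_⟩
      generalize d (DH.l s(p, q)) = x at this ⊢
      generalize d (DH.r s(p, q)) = y at this ⊢
      revert x y
      decide
    obtain ⟨x, hx⟩ := hQ.2.1
    have hK0 : K.Adj none (some (F a)) := ⟨Or.inl rfl, x, (hx x).2 rfl⟩
    have h00 : (apex (DH.half d) K.support).Adj none (some none) :=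
      ⟨⟨some (F a), hK0⟩, some (F a), hKd hK0⟩
    let π : Option (Option V) → Option (Option V) := fun p => some (p.getD none)
    refine PD.minor (H := apex (DH.half d) K.support) π ?_ ?_ p1
    · intro v p q hp hq
      have h1 : ∀ p, π p = some v → p = some v ∨ (p = none ∧ v = none) := by
        intro p hp
        cases p with
        | none => exact Or.inr ⟨rfl, (Option.some.inj hp).symm⟩
        | some p => exact Or.inl hp
      rcases h1 p hp with rfl | ⟨rfl, rfl⟩ <;> rcases h1 q hq with e | ⟨rfl, e⟩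
      · rw [e]
      · subst e
        exact ReflTransGen.single ⟨h00.symm, rfl, rfl⟩
      · subst e
        exact ReflTransGen.single ⟨h00, rfl, rfl⟩
      · exact ReflTransGen.refl
    · have hap : ∀ v, (apex ((DH.half d).comap some) (Q.support ∪ A.support)).Adj none (some v) →
          ∃ p q, (apex (DH.half d) K.support).Adj p q ∧ π p = some none ∧ π q = some (some v) := by
        rintro v ⟨h1 | ⟨w, h1⟩, z, h2⟩
        · exact ⟨none, some (some v), ⟨(hKs v).2 h1, some z, h2⟩, rfl, rfl⟩
        · have hv : v ∈ Set.range F := by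
            rw [← cycG_support D.cyc]
            exact ⟨w, hAF h1⟩
          refine ⟨some none, some (some v), ⟨⟨hv, z, h2.1⟩, ?_⟩, rfl, rfl⟩
          show d (L s(none, some v)) = 1 ∨ d (R s(none, some v)) = 1
          rw [Sym2.eq_swap, hL1, hR1]
          rcases ((hn v hv).2 w).1 (hAF h1) with e | e
          · exact Or.inl (e ▸ hdA v w h1)
          · exact Or.inr (e ▸ hdA v w h1)
      intro p q hpq
      cases p <;> cases q
      · exact hpq.elim
      · exact hap _ hpq
      · obtain ⟨p, q, h1, h2, h3⟩ := hap _ hpq.symm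
        exact ⟨q, p, h1.symm, h3, h2⟩
      · exact ⟨some (some _), some (some _), hpq, rfl, rfl⟩
  have hA2 : ∀ u v, (arcG F b (a + m)).Adj u v → ind (arcG F a b) s(u, v) = 0 := fun u v h =>
    ind_of_not fun h' => by
      have : (arcG F a b ⊓ arcG F b (a + m)).Adj u v := ⟨h', h⟩
      rw [hinf] at this
      exact this
  obtain ⟨k1, k2⟩ := key cH (arcG F a b) (arcG_le D.cyc _ _) hcH fun u v h => ind_of_adj h
  obtain ⟨k3, k4⟩ := key (fun g => cH g + 1) (arcG F b (a + m)) (arcG_le D.cyc _ _) hcH'
    fun u v h => by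
      show ind (arcG F a b) s(u, v) + 1 = 1
      rw [hA2 u v h, zero_add]
  have hinfQ : (DH.half cH).comap some ⊓ (DH.half fun g => cH g + 1).comap some = Q := by
    ext u v
    have e := fun h : G.Adj u v => hcH (some u) (some v) h
    rw [hKQ] at e
    constructor
    · rintro ⟨⟨h, h1⟩, -, h2⟩
      by_contra hn
      have := e h
      rw [ind_of_not hn] at this
      beta_reduce at h2
      generalize cH (DH.l s(some u, some v)) = x at this h1 h2
      generalize cH (DH.r s(some u, some v)) = y at this h1 h2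
      revert x y
      decide
    · intro h
      have := e (hQG h)
      rw [ind_of_adj h] at this
      refine ⟨⟨hQG h, ?_⟩, hQG h, ?_⟩
      all_goals
        beta_reduce
        generalize cH (DH.l s(some u, some v)) = x at this ⊢
        generalize cH (DH.r s(some u, some v)) = y at this ⊢
        revert x y
        decide
  refine ⟨_, _, ?_, hinfQ, fun u v h => ⟨hAG h, ?_⟩,
    fun u v h => ⟨cycG_le D.cyc (arcG_le D.cyc _ _ h), ?_⟩, ?_, k1, k3⟩
  · refine le_antisymm (sup_le (fun _ _ h => h.1) fun _ _ h => h.1) fun u v h => ?_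
    rcases z2_cases (cH (DH.l s(some u, some v))) with e | e
    · exact Or.inr ⟨h, Or.inl (by beta_reduce; rw [e]; rfl)⟩
    · exact Or.inl ⟨h, Or.inl e⟩
  · have := hout u v (arcG_le D.cyc _ _ h)
    rwa [ind_of_adj h] at this
  · have := hout u v (arcG_le D.cyc _ _ h)
    rw [hA2 u v h] at this
    exact this.imp (fun e => by show cH (L _) + 1 = 1; rw [e, zero_add])
      fun e => by show cH (R _) + 1 = 1; rw [e, zero_add]
  · rintro x ⟨w, hw⟩ ⟨z, hz⟩
    by_contra hx
    have : Q.Adj x z := by
      rw [← hinfQ]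
      exact ⟨k2 x w z hx hw hz.1, hz⟩
    exact hx ⟨z, this⟩

/-- list form of `Disc.cut` -/
theorem Disc.cutL {G : SimpleGraph V} {m : ℕ} {F : ℤ → V} (D : Disc G m F) {a b : ℤ} (hab : a < b)
    (hb : b < a + m) {q : List V} (hq : List.IsChain G.Adj (F a :: q ++ [F b]))
    (hn : (F a :: q ++ [F b]).Nodup) :
    ∃ G1 G2 : SimpleGraph V, G1 ⊔ G2 = G ∧ G1 ⊓ G2 = listG (F a :: q ++ [F b]) ∧
      arcG F a b ≤ G1 ∧ arcG F b (a + m) ≤ G2 ∧
      (∀ x, x ∈ G1.support → x ∈ G2.support → x ∈ F a :: q ++ [F b]) ∧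
      PO G1 {x | x ∈ q ∨ ∃ i, a ≤ i ∧ i ≤ b ∧ x = F i} ∧
      PO G2 {x | x ∈ q ∨ ∃ i, b ≤ i ∧ i ≤ a + m ∧ x = F i} := by
  obtain ⟨G1, G2, h1, h2, h3, h4, h5, h6, h7⟩ := D.cut hab hb (listG_isPth hn) (listG_le hq)
  rw [listG_support hn, arcG_support D.cyc hab] at h6
  rw [listG_support hn, arcG_support D.cyc hb] at h7
  rw [listG_support hn] at h5
  refine ⟨G1, G2, h1, h2, h3, h4, h5, h6.mono le_rfl ?_, h7.mono le_rfl ?_⟩
  · rintro x (h | h) -
    · exact Or.inl (by simp [h])
    · exact Or.inr h
  · rintro x (h | h) -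
    · exact Or.inl (by simp [h])
    · exact Or.inr h

end Pool.Agent.Pl
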